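import Mathlib

/-!
# Non-atomic measures, norm attainment in Bochner spaces, the Radon-Nikodym property
-/

set_option autoImplicit false

open MeasureTheory

open scoped ENNReal

namespace Q192.NA

universe u v w

/-- The measure `μ` is non-atomic: every measurable set of positive measure contains a measurable
set of strictly smaller positive measure. -/
def NonAtomic {Ω : Type u} [MeasurableSpace Ω] (μ : Measure Ω) : Prop :=
  ∀ s, MeasurableSet s → 0 < μ s → ∃ t ⊆ s, MeasurableSet t ∧ 0 < μ t ∧ μ t < μ s

/-- Every element of `L^p(μ, X)` attains its norm on the closed unit ball of `L^q(μ, X*)`. -/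
def EveryElementAttains (𝕜 : Type u) [RCLike 𝕜] (X : Type v) [NormedAddCommGroup X]
    [NormedSpace 𝕜 X] {Ω : Type w} [MeasurableSpace Ω] (μ : Measure Ω) (p q : ℝ≥0∞) : Prop :=
  ∀ f : Lp X p μ, ∃ g : Lp (StrongDual 𝕜 X) q μ, ‖g‖ ≤ 1 ∧ ∫ ω, g ω (f ω) ∂μ = (‖f‖ : 𝕜)

/-- The Radon-Nikodym property of the Banach space `Y`: for every finite measure `ν` on a
measurable space (in the universe `u`), every vector measure with values in `Y` which vanishes on
the null sets of `ν` and has bounded variation has a Bochner integrable density with respect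
to `ν`. -/
def HasRNP (Y : Type v) [NormedAddCommGroup Y] [NormedSpace ℝ Y] : Prop :=
  ∀ (Ω : Type u) [MeasurableSpace Ω] (ν : Measure Ω) [IsFiniteMeasure ν] (m : VectorMeasure Ω Y),
    (∀ s, MeasurableSet s → ν s = 0 → m s = 0) → m.variation Set.univ < ∞ →
      ∃ g : Ω → Y, Integrable g ν ∧ ∀ s, MeasurableSet s → m s = ∫ ω in s, g ω ∂ν

end Q192.NA
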