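import Pool.Agent.Q192.NA.Mart

/-!
# A martingale difference sequence from a vector measure without density
-/

set_option autoImplicit false

open Filter Topology Set MeasureTheory

open scoped ComplexConjugate

namespace Q192.NA

variable {Ω : Type*} [MeasurableSpace Ω] {ν : Measure Ω} [IsFiniteMeasure ν]
variable {𝕜 : Type*} [RCLike 𝕜] {X : Type*} [NormedAddCommGroup X] [NormedSpace 𝕜 X]

lemma exists_good (w : StrongDual 𝕜 X) : ∃ x : X, ‖x‖ ≤ 1 ∧ ‖w‖ / 2 ≤ RCLike.re (w x) := by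
  rcases eq_or_ne w 0 with rfl | hw
  · exact ⟨0, by simp, by simp⟩
  · have h0 : 0 < ‖w‖ := norm_pos_iff.2 hw
    obtain ⟨x, hx1, hx2⟩ := w.exists_lt_apply_of_lt_opNorm (show ‖w‖ / 2 < ‖w‖ by linarith)
    obtain ⟨u, hu, hu2⟩ := RCLike.exists_norm_eq_mul_self (w x)
    refine ⟨u • x, ?_, ?_⟩
    · rw [norm_smul, hu, one_mul]; exact hx1.le
    · rw [map_smul, smul_eq_mul, ← hu2, RCLike.ofReal_re]
      exact hx2.le

lemma integrable_pair {G : Ω → StrongDual 𝕜 X} {H : Ω → X} (hG : StronglyMeasurable G)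
    (hH : StronglyMeasurable H) {c C : ℝ} (hGc : ∀ ω, ‖G ω‖ ≤ c) (hHC : ∀ ω, ‖H ω‖ ≤ C) :
    Integrable (fun ω => G ω (H ω)) ν := by
  refine Integrable.of_bound ((ContinuousLinearMap.id 𝕜 (StrongDual 𝕜 X)).aestronglyMeasurable_comp₂
    hG.aestronglyMeasurable hH.aestronglyMeasurable) (c * C) (Eventually.of_forall fun ω => ?_)
  refine ((G ω).le_opNorm _).trans ?_
  exact mul_le_mul (hGc ω) (hHC ω) (norm_nonneg _) ((norm_nonneg _).trans (hGc ω))

variable {m : VectorMeasure Ω (StrongDual 𝕜 X)} {c : ℝ}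

omit [IsFiniteMeasure ν] in
lemma sm_dens {π : Ω → ℕ} (hπ : Measurable π) : StronglyMeasurable (dens ν m π) :=
  sm_comp _ hπ

/-- Coarser functions see only the coarser density. -/
lemma tower (hm : ∀ s, MeasurableSet s → ‖m s‖ ≤ c * ν.real s) (hc : 0 ≤ c) {π π' : Ω → ℕ}
    (hπ : Measurable π) (hπ' : Measurable π') (ψ : ℕ → ℕ) (hψ : ∀ ω, π ω = ψ (π' ω))
    (F : ℕ → X) {C : ℝ} (hF : ∀ k, ‖F k‖ ≤ C) :
    ∫ ω, dens ν m π' ω (F (π ω)) ∂ν = ∫ ω, dens ν m π ω (F (π ω)) ∂ν := by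
  have hi : ∀ {ρ : Ω → ℕ}, Measurable ρ → Integrable (fun ω => dens ν m ρ ω (F (π ω))) ν :=
    fun hρ => integrable_pair (sm_dens hρ) (sm_comp F hπ) (fun _ => norm_val_le hm hc hρ _)
      (fun _ => hF _)
  refine integral_cells_eq (hi hπ') (hi hπ) hπ fun k => ?_
  have h1 : ∀ {ρ : Ω → ℕ}, Measurable ρ → ∫ ω in π ⁻¹' {k}, dens ν m ρ ω (F (π ω)) ∂ν =
      (∫ ω in π ⁻¹' {k}, dens ν m ρ ω ∂ν) (F k) := by
    intro ρ hρ
    rw [ContinuousLinearMap.integral_apply (integrable_dens hm hc hρ).integrableOn]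
    refine setIntegral_congr_fun (hπ (measurableSet_singleton k)) fun ω hω => ?_
    have : π ω = k := hω
    simp only [this]
  rw [h1 hπ', h1 hπ, setIntegral_dens hm hc hπ]
  have h2 : π ⁻¹' {k} = π' ⁻¹' (ψ ⁻¹' {k}) := by
    ext ω
    simp [hψ]
  rw [h2, setIntegral_dens hm hc hπ']

variable [NormedSpace ℝ X] [IsScalarTower ℝ 𝕜 X]

/-- The means of a function of the finer partition over the cells of the coarser one. -/
noncomputable def mean (ν : Measure Ω) (π : Ω → ℕ) (h : Ω → X) (k : ℕ) : X :=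
  (ν.real (π ⁻¹' {k}))⁻¹ • ∫ ω in π ⁻¹' {k}, h ω ∂ν

omit [NormedSpace 𝕜 X] [IsScalarTower ℝ 𝕜 X] in
lemma smul_mean {π : Ω → ℕ} (h : Ω → X) (k : ℕ) :
    ν.real (π ⁻¹' {k}) • mean ν π h k = ∫ ω in π ⁻¹' {k}, h ω ∂ν := by
  rw [mean, smul_smul]
  rcases eq_or_ne (ν.real (π ⁻¹' {k})) 0 with h0 | h0
  · rw [h0, zero_mul, zero_smul, Measure.restrict_eq_zero.2, integral_zero_measure]
    rwa [measureReal_eq_zero_iff] at h0
  · rw [mul_inv_cancel₀ h0, one_smul]

omit [NormedSpace 𝕜 X] [IsScalarTower ℝ 𝕜 X] in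
lemma norm_mean_le {π : Ω → ℕ} {h : Ω → X} (hh : ∀ ω, ‖h ω‖ ≤ 1) (k : ℕ) :
    ‖mean ν π h k‖ ≤ 1 := by
  rw [mean, norm_smul, norm_inv, Real.norm_of_nonneg measureReal_nonneg]
  rcases eq_or_lt_of_le (measureReal_nonneg (μ := ν) (s := π ⁻¹' {k})) with h0 | h0
  · rw [← h0, inv_zero, zero_mul]; exact zero_le_one
  · rw [inv_mul_le_iff₀ h0, mul_one]
    refine (norm_setIntegral_le_of_norm_le_const (measure_lt_top _ _) (fun ω _ => hh ω)).trans ?_
    rw [one_mul]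

/-- One step of the construction. -/
lemma exists_step [CompleteSpace X] (hm : ∀ s, MeasurableSet s → ‖m s‖ ≤ c * ν.real s)
    (hc : 0 ≤ c) {e : ℝ} {q q' : Ω → ℕ} (hq : Measurable q) (hq' : Measurable q') (φ : ℕ → ℕ)
    (hφ : ∀ ω, q ω = φ (q' ω)) (he : e ≤ ∫ ω, ‖dens ν m q' ω - dens ν m q ω‖ ∂ν) :
    ∃ z : ℕ → X, (∀ j, ‖z j‖ ≤ 2) ∧ (∀ k, ∫ ω in q ⁻¹' {k}, z (q' ω) ∂ν = 0) ∧
      e / 2 ≤ RCLike.re (∫ ω, dens ν m q' ω (z (q' ω)) ∂ν) := by
  choose x hx1 hx2 using fun j => exists_good (𝕜 := 𝕜) (X := X)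
    (val ν m q' j - val ν m q (φ j))
  obtain ⟨h, hh⟩ : ∃ h : Ω → X, ∀ ω, h ω = x (q' ω) := ⟨_, fun _ => rfl⟩
  have hh' : h = fun ω => x (q' ω) := funext hh
  obtain ⟨y, hy⟩ : ∃ y : ℕ → X, ∀ k, y k = mean ν q h k := ⟨_, fun _ => rfl⟩
  have hh1 : ∀ ω, ‖h ω‖ ≤ 1 := fun ω => by rw [hh]; exact hx1 _
  have hhs : StronglyMeasurable h := by rw [hh']; exact sm_comp x hq'
  have hhi : Integrable h ν := by rw [hh']; exact integrable_comp x hq' hx1
  have hy1 : ∀ k, ‖y k‖ ≤ 1 := fun k => by rw [hy]; exact norm_mean_le hh1 k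
  have hzq : ∀ ω, x (q' ω) - y (φ (q' ω)) = h ω - y (q ω) := fun ω => by rw [hh, hφ]
  have hb' : ∀ ω, ‖dens ν m q' ω‖ ≤ c := fun ω => norm_val_le hm hc hq' _
  have hb : ∀ ω, ‖dens ν m q ω‖ ≤ c := fun ω => norm_val_le hm hc hq _
  have i1 : Integrable (fun ω => dens ν m q ω (h ω)) ν := integrable_pair (sm_dens hq) hhs hb hh1
  have i1' : Integrable (fun ω => dens ν m q' ω (h ω)) ν :=
    integrable_pair (sm_dens hq') hhs hb' hh1
  have i2 : Integrable (fun ω => dens ν m q ω (y (q ω))) ν :=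
    integrable_pair (sm_dens hq) (sm_comp y hq) hb (fun _ => hy1 _)
  have i2' : Integrable (fun ω => dens ν m q' ω (y (q ω))) ν :=
    integrable_pair (sm_dens hq') (sm_comp y hq) hb' (fun _ => hy1 _)
  refine ⟨fun j => x j - y (φ j), fun j => ?_, fun k => ?_, ?_⟩
  · refine (norm_sub_le _ _).trans ?_
    linarith [hx1 j, hy1 (φ j)]
  · have h1 : ∫ ω in q ⁻¹' {k}, (x (q' ω) - y (φ (q' ω))) ∂ν =
        ∫ ω in q ⁻¹' {k}, (h ω - y k) ∂ν := by
      refine setIntegral_congr_fun (hq (measurableSet_singleton k)) fun ω hω => ?_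
      have : q ω = k := hω
      simp only [hzq, this]
    rw [h1, integral_sub hhi.integrableOn (integrable_const _), setIntegral_const, hy,
      smul_mean, sub_self]
  · have e1 : ∫ ω, dens ν m q' ω (x (q' ω) - y (φ (q' ω))) ∂ν =
        ∫ ω, dens ν m q' ω (h ω) ∂ν - ∫ ω, dens ν m q' ω (y (q ω)) ∂ν := by
      rw [← integral_sub i1' i2']
      refine integral_congr_ae (Eventually.of_forall fun ω => ?_)
      simp only [hzq, map_sub]
    have e2 : ∫ ω, dens ν m q' ω (y (q ω)) ∂ν = ∫ ω, dens ν m q ω (y (q ω)) ∂ν :=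
      tower hm hc hq hq' φ hφ _ hy1
    have e3 : ∫ ω, dens ν m q ω (y (q ω)) ∂ν = ∫ ω, dens ν m q ω (h ω) ∂ν := by
      refine integral_cells_eq i2 i1 hq fun k => ?_
      have h1 : ∫ ω in q ⁻¹' {k}, dens ν m q ω (y (q ω)) ∂ν =
          ∫ ω in q ⁻¹' {k}, val ν m q k (y k) ∂ν := by
        refine setIntegral_congr_fun (hq (measurableSet_singleton k)) fun ω hω => ?_
        have : q ω = k := hω
        simp only [dens, this]
      have h2 : ∫ ω in q ⁻¹' {k}, dens ν m q ω (h ω) ∂ν =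
          ∫ ω in q ⁻¹' {k}, val ν m q k (h ω) ∂ν := by
        refine setIntegral_congr_fun (hq (measurableSet_singleton k)) fun ω hω => ?_
        have : q ω = k := hω
        simp only [dens, this]
      rw [h1, h2, setIntegral_const]
      have h3 : ∫ ω in q ⁻¹' {k}, val ν m q k (h ω) ∂ν =
          val ν m q k (∫ ω in q ⁻¹' {k}, h ω ∂ν) :=
        ContinuousLinearMap.integral_comp_comm _ hhi.integrableOn
      rw [h3, ← smul_mean, hy, ContinuousLinearMap.map_smul_of_tower]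
    have i4 : Integrable (fun ω => dens ν m q' ω (h ω) - dens ν m q ω (h ω)) ν := i1'.sub i1
    rw [e1, e2, e3, ← integral_sub i1' i1, ← integral_re i4]
    have h4 : ∀ ω, ‖dens ν m q' ω - dens ν m q ω‖ / 2 ≤
        RCLike.re (dens ν m q' ω (h ω) - dens ν m q ω (h ω)) := by
      intro ω
      have h5 : dens ν m q' ω - dens ν m q ω = val ν m q' (q' ω) - val ν m q (φ (q' ω)) := by
        rw [← hφ]; rfl
      have h6 : dens ν m q' ω (h ω) - dens ν m q ω (h ω) =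
          (dens ν m q' ω - dens ν m q ω) (h ω) := rfl
      rw [h6, h5, hh]
      exact hx2 _
    have i3 : Integrable (fun ω => ‖dens ν m q' ω - dens ν m q ω‖) ν :=
      ((integrable_dens hm hc hq').sub (integrable_dens hm hc hq)).norm
    have h6 : ∫ ω, ‖dens ν m q' ω - dens ν m q ω‖ / 2 ∂ν ≤
        ∫ ω, RCLike.re (dens ν m q' ω (h ω) - dens ν m q ω (h ω)) ∂ν :=
      integral_mono (i3.div_const 2) i4.re h4
    rw [integral_div] at h6
    linarith

/-- The main construction. -/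
theorem exists_seq [CompleteSpace X] (hm : ∀ s, MeasurableSet s → ‖m s‖ ≤ c * ν.real s)
    (hc : 0 < c) {e : ℝ} (he : 0 < e)
    (hmv : ∀ π : Ω → ℕ, Measurable π → ∃ ρ : Ω → ℕ, Measurable ρ ∧
        e ≤ ∫ ω, ‖dens ν m (fun ω => Nat.pair (π ω) (ρ ω)) ω - dens ν m π ω‖ ∂ν) :
    ∃ (Q : ℕ → Ω → ℕ) (z : ℕ → ℕ → X) (δ : ℝ), 0 < δ ∧ (∀ n, Measurable (Q n)) ∧
      (∀ n j, ‖z n j‖ ≤ 2) ∧
      (∀ (s : Finset ℕ) (w : ℕ → ℝ), (∀ n ∈ s, 0 ≤ w n) → ∑ n ∈ s, w n = 1 →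
        δ ≤ ∫ ω, ‖∑ n ∈ s, w n • z n (Q n ω)‖ ∂ν) ∧
      (∀ (x' : StrongDual 𝕜 X) (n k : ℕ), n ≠ k →
        ∫ ω, x' (z n (Q n ω)) * conj (x' (z k (Q k ω))) ∂ν = 0) := by
  choose! R hR hRe using hmv
  have hpair : ∀ {π ρ : Ω → ℕ}, Measurable π → Measurable ρ →
      Measurable fun ω => Nat.pair (π ω) (ρ ω) := fun h1 h2 =>
    (measurable_from_prod_countable_right (f := fun p : ℕ × ℕ => Nat.pair p.1 p.2)
      (fun _ => measurable_from_top)).comp (h1.prodMk h2)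
  obtain ⟨q, hq0, hq1⟩ : ∃ q : ℕ → Ω → ℕ, (q 0 = fun _ => 0) ∧
      ∀ n, q (n + 1) = fun ω => Nat.pair (q n ω) (R (q n) ω) :=
    ⟨fun n => Nat.rec (fun _ => 0) (fun _ p ω => Nat.pair (p ω) (R p ω)) n, rfl, fun n => rfl⟩
  have hq : ∀ n, Measurable (q n) := by
    intro n
    induction n with
    | zero => rw [hq0]; exact measurable_const
    | succ n ih => rw [hq1]; exact hpair ih (hR _ ih)
  obtain ⟨φ, hφ'⟩ : ∃ φ : ℕ → ℕ, ∀ k, φ k = (Nat.unpair k).1 := ⟨_, fun _ => rfl⟩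
  have hφ : ∀ n ω, q n ω = φ (q (n + 1) ω) := by
    intro n ω
    rw [hφ', hq1, Nat.unpair_pair]
  have hcoarse : ∀ n k, ∃ ψ : ℕ → ℕ, ∀ ω, q n ω = ψ (q (n + k) ω) := by
    intro n k
    induction k with
    | zero => exact ⟨id, fun ω => rfl⟩
    | succ k ih =>
      obtain ⟨ψ, hψ⟩ := ih
      exact ⟨ψ ∘ φ, fun ω => by rw [hψ, hφ (n + k) ω]; rfl⟩
  have hmove : ∀ n, e ≤ ∫ ω, ‖dens ν m (q (n + 1)) ω - dens ν m (q n) ω‖ ∂ν := by
    intro n
    rw [hq1]
    exact hRe (q n) (hq n)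
  choose z hz2 hz0 hzp using fun n => exists_step hm hc.le (hq n) (hq (n + 1)) φ (hφ n) (hmove n)
  have hzi : ∀ n, Integrable (fun ω => z n (q (n + 1) ω)) ν := fun n =>
    integrable_comp (z n) (hq (n + 1)) (hz2 n)
  -- the pairing with the later densities
  have hpairing : ∀ n k, e / 2 ≤ RCLike.re
      (∫ ω, dens ν m (q (n + 1 + k)) ω (z n (q (n + 1) ω)) ∂ν) := by
    intro n k
    obtain ⟨ψ, hψ⟩ := hcoarse (n + 1) k
    rw [tower hm hc.le (hq (n + 1)) (hq (n + 1 + k)) ψ hψ (z n) (hz2 n)]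
    exact hzp n
  refine ⟨fun n => q (n + 1), z, e / (2 * c), by positivity, fun n => hq (n + 1), hz2, ?_, ?_⟩
  · -- convex combinations
    intro s a ha ha1
    obtain ⟨N, hN⟩ : ∃ N, ∀ n ∈ s, n < N := ⟨s.sup id + 1, fun n hn =>
      Nat.lt_succ_of_le (Finset.le_sup (f := id) hn)⟩
    obtain ⟨F, hF⟩ : ∃ F : Ω → X, ∀ ω, F ω = ∑ n ∈ s, a n • z n (q (n + 1) ω) :=
      ⟨_, fun _ => rfl⟩
    have hF' : F = fun ω => ∑ n ∈ s, a n • z n (q (n + 1) ω) := funext hF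
    have hFi : Integrable F ν := by
      rw [hF']
      exact integrable_finsetSum _ fun n _ => (hzi n).smul (a n)
    have hb : ∀ ω, ‖dens ν m (q N) ω‖ ≤ c := fun ω => norm_val_le hm hc.le (hq N) _
    have i1 : ∀ n, Integrable (fun ω => dens ν m (q N) ω (z n (q (n + 1) ω))) ν := fun n =>
      integrable_pair (sm_dens (hq N)) (sm_comp (z n) (hq (n + 1))) hb (fun _ => hz2 n _)
    have h1 : ∫ ω, dens ν m (q N) ω (F ω) ∂ν =
        ∑ n ∈ s, a n • ∫ ω, dens ν m (q N) ω (z n (q (n + 1) ω)) ∂ν := by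
      simp_rw [← integral_smul]
      have i5 : ∀ n ∈ s, Integrable (fun ω => a n • dens ν m (q N) ω (z n (q (n + 1) ω))) ν :=
        fun n _ => (i1 n).smul (a n)
      rw [← integral_finsetSum _ i5]
      refine integral_congr_ae (Eventually.of_forall fun ω => ?_)
      simp only [hF, map_sum, ContinuousLinearMap.map_smul_of_tower]
    have h2 : e / 2 ≤ RCLike.re (∫ ω, dens ν m (q N) ω (F ω) ∂ν) := by
      rw [h1, map_sum]
      have h3 : ∀ n ∈ s, a n * (e / 2) ≤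
          RCLike.re (a n • ∫ ω, dens ν m (q N) ω (z n (q (n + 1) ω)) ∂ν) := by
        intro n hn
        rw [RCLike.smul_re]
        obtain ⟨k, rfl⟩ : ∃ k, N = n + 1 + k := ⟨N - (n + 1), by have := hN n hn; omega⟩
        exact mul_le_mul_of_nonneg_left (hpairing n k) (ha n hn)
      have h4 := Finset.sum_le_sum h3
      rw [← Finset.sum_mul, ha1, one_mul] at h4
      exact h4
    have h3 : ‖∫ ω, dens ν m (q N) ω (F ω) ∂ν‖ ≤ c * ∫ ω, ‖F ω‖ ∂ν := by
      rw [← integral_const_mul]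
      refine norm_integral_le_of_norm_le (hFi.norm.const_mul c) (Eventually.of_forall fun ω => ?_)
      refine ((dens ν m (q N) ω).le_opNorm _).trans ?_
      exact mul_le_mul_of_nonneg_right (hb ω) (norm_nonneg _)
    have h4 := (RCLike.re_le_norm (∫ ω, dens ν m (q N) ω (F ω) ∂ν))
    simp only [← hF]
    rw [div_le_iff₀ (by positivity)]
    linarith
  · -- orthogonality
    have key : ∀ (x' : StrongDual 𝕜 X) (n k : ℕ), n < k →
        ∫ ω, x' (z n (q (n + 1) ω)) * conj (x' (z k (q (k + 1) ω))) ∂ν = 0 := by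
      intro x' n k hnk
      obtain ⟨i, rfl⟩ : ∃ i, k = n + 1 + i := ⟨k - (n + 1), by omega⟩
      obtain ⟨ψ, hψ⟩ := hcoarse (n + 1) i
      have hsm : ∀ j, StronglyMeasurable fun ω => x' (z j (q (j + 1) ω)) := fun j =>
        sm_comp (fun r => x' (z j r)) (hq (j + 1))
      have hxb : ∀ j ω, ‖x' (z j (q (j + 1) ω))‖ ≤ ‖x'‖ * 2 := fun j ω =>
        (x'.le_opNorm _).trans (mul_le_mul_of_nonneg_left (hz2 j _) (norm_nonneg _))
      have hint : Integrable (fun ω => x' (z n (q (n + 1) ω)) *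
          conj (x' (z (n + 1 + i) (q (n + 1 + i + 1) ω)))) ν := by
        refine Integrable.of_bound ((hsm n).mul (RCLike.continuous_conj.comp_stronglyMeasurable
          (hsm (n + 1 + i)))).aestronglyMeasurable ((‖x'‖ * 2) * (‖x'‖ * 2))
          (Eventually.of_forall fun ω => ?_)
        rw [norm_mul, RCLike.norm_conj]
        exact mul_le_mul (hxb _ _) (hxb _ _) (norm_nonneg _) (by positivity)
      have h0 := integral_cells_eq (G := fun _ => (0 : 𝕜)) hint (integrable_zero _ _ _)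
        (hq (n + 1 + i)) (fun j => ?_)
      · rw [h0, integral_zero]
      · rw [integral_zero]
        have h1 : ∫ ω in q (n + 1 + i) ⁻¹' {j}, x' (z n (q (n + 1) ω)) *
            conj (x' (z (n + 1 + i) (q (n + 1 + i + 1) ω))) ∂ν =
            ∫ ω in q (n + 1 + i) ⁻¹' {j}, x' (z n (ψ j)) *
            conj (x' (z (n + 1 + i) (q (n + 1 + i + 1) ω))) ∂ν := by
          refine setIntegral_congr_fun (hq _ (measurableSet_singleton j)) fun ω hω => ?_
          have h2 : q (n + 1 + i) ω = j := hω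
          have h3 : q (n + 1) ω = ψ j := by rw [hψ, h2]
          simp only [h3]
        rw [h1, integral_const_mul, integral_conj]
        have h4 : ∫ ω in q (n + 1 + i) ⁻¹' {j}, x' (z (n + 1 + i) (q (n + 1 + i + 1) ω)) ∂ν =
            x' (∫ ω in q (n + 1 + i) ⁻¹' {j}, z (n + 1 + i) (q (n + 1 + i + 1) ω) ∂ν) :=
          ContinuousLinearMap.integral_comp_comm _ (hzi _).integrableOn
        rw [h4, hz0, map_zero, map_zero, mul_zero]
    intro x' n k hnk
    rcases lt_or_gt_of_ne hnk with h1 | h1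
    · exact key x' n k h1
    · have h2 := congrArg conj (key x' k n h1)
      rw [← integral_conj, map_zero] at h2
      rw [← h2]
      refine integral_congr_ae (Eventually.of_forall fun ω => ?_)
      simp only [map_mul, RCLike.conj_conj]
      exact mul_comm _ _

end Q192.NA
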