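import Mathlib

/-!
# Diffuse probability measures: every probability law on a standard Borel space is a law of a
measurable map
-/

set_option autoImplicit false

open Filter Topology Set MeasureTheory ProbabilityTheory

namespace Q192.NA

variable {Ω : Type*} [MeasurableSpace Ω]

/-- The measure `μ` is non-atomic: every measurable set of positive measure has a measurable
subset of strictly smaller positive measure. -/
def Diffuse (μ : Measure Ω) : Prop :=
  ∀ s, MeasurableSet s → 0 < μ s → ∃ t ⊆ s, MeasurableSet t ∧ 0 < μ t ∧ μ t < μ s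

variable {μ : Measure Ω} [IsFiniteMeasure μ]

lemma Diffuse.half (h : Diffuse μ) {s : Set Ω} (hs : MeasurableSet s) (h0 : 0 < μ.real s) :
    ∃ t ⊆ s, MeasurableSet t ∧ 0 < μ.real t ∧ μ.real t ≤ μ.real s / 2 := by
  have h0' : 0 < μ s := by
    rw [pos_iff_ne_zero]
    intro h1
    rw [Measure.real, h1] at h0
    simp at h0
  obtain ⟨t, hts, ht, ht0, htl⟩ := h s hs h0'
  have h1 : 0 < μ.real t := ENNReal.toReal_pos ht0.ne' (measure_ne_top _ _)
  have h2 : μ.real t < μ.real s :=
    (ENNReal.toReal_lt_toReal (measure_ne_top _ _) (measure_ne_top _ _)).2 htl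
  have h3 : μ.real (s \ t) = μ.real s - μ.real t := by
    rw [measureReal_sdiff hts ht]
  rcases le_total (μ.real t) (μ.real s / 2) with h4 | h4
  · exact ⟨t, hts, ht, h1, h4⟩
  · refine ⟨s \ t, sdiff_subset, hs.diff ht, ?_, ?_⟩
    · rw [h3]; linarith
    · rw [h3]; linarith

lemma Diffuse.small (h : Diffuse μ) {s : Set Ω} (hs : MeasurableSet s) (h0 : 0 < μ.real s)
    (n : ℕ) : ∃ t ⊆ s, MeasurableSet t ∧ 0 < μ.real t ∧ μ.real t ≤ μ.real s / 2 ^ n := by
  induction n with
  | zero => exact ⟨s, Subset.rfl, hs, h0, by simp⟩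
  | succ n ih =>
    obtain ⟨t, hts, ht, ht0, htl⟩ := ih
    obtain ⟨u, hut, hu, hu0, hul⟩ := h.half ht ht0
    refine ⟨u, hut.trans hts, hu, hu0, hul.trans ?_⟩
    rw [pow_succ, ← div_div]
    linarith

lemma Diffuse.small' (h : Diffuse μ) {s : Set Ω} (hs : MeasurableSet s) (h0 : 0 < μ.real s)
    {e : ℝ} (he : 0 < e) : ∃ t ⊆ s, MeasurableSet t ∧ 0 < μ.real t ∧ μ.real t ≤ e := by
  obtain ⟨n, hn⟩ := exists_pow_lt_of_lt_one (show 0 < e / μ.real s by positivity)
    (show (1 / 2 : ℝ) < 1 by norm_num)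
  obtain ⟨t, hts, ht, ht0, htl⟩ := h.small hs h0 n
  refine ⟨t, hts, ht, ht0, htl.trans ?_⟩
  rw [lt_div_iff₀ h0] at hn
  rw [div_eq_mul_inv]
  have : ((2 : ℝ) ^ n)⁻¹ = (1 / 2) ^ n := by rw [one_div, inv_pow]
  rw [this]; linarith

omit [IsFiniteMeasure μ] in
lemma greedy {s : Set Ω} (B : Set Ω) {c : ℝ} (hB : μ.real B ≤ c) :
    ∃ C ⊆ s \ B, MeasurableSet C ∧ μ.real B + μ.real C ≤ c ∧
      ∀ D ⊆ s \ B, MeasurableSet D → μ.real B + μ.real D ≤ c → μ.real D ≤ 2 * μ.real C := by
  set S : Set ℝ := {x | ∃ D ⊆ s \ B, MeasurableSet D ∧ μ.real B + μ.real D ≤ c ∧ x = μ.real D}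
  have hne : (0 : ℝ) ∈ S := ⟨∅, empty_subset _, MeasurableSet.empty, by simpa using hB, by simp⟩
  have hbd : BddAbove S := by
    refine ⟨c, ?_⟩
    rintro _ ⟨D, -, -, hD, rfl⟩
    linarith [measureReal_nonneg (μ := μ) (s := B)]
  rcases le_or_gt (sSup S) 0 with h | h
  · refine ⟨∅, empty_subset _, MeasurableSet.empty, by simpa using hB, ?_⟩
    intro D hD hDm hDc
    have := le_csSup hbd (show μ.real D ∈ S from ⟨D, hD, hDm, hDc, rfl⟩)
    simp only [measureReal_empty, mul_zero]
    linarith
  · obtain ⟨_, ⟨C, hC, hCm, hCc, rfl⟩, hC2⟩ :=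
      exists_lt_of_lt_csSup ⟨0, hne⟩ (show sSup S / 2 < sSup S by linarith)
    refine ⟨C, hC, hCm, hCc, ?_⟩
    intro D hD hDm hDc
    have := le_csSup hbd (show μ.real D ∈ S from ⟨D, hD, hDm, hDc, rfl⟩)
    linarith

/-- A non-atomic finite measure takes all intermediate values. -/
theorem Diffuse.exists_set (h : Diffuse μ) {s : Set Ω} (hs : MeasurableSet s) {c : ℝ}
    (h0 : 0 ≤ c) (hc : c ≤ μ.real s) : ∃ t ⊆ s, MeasurableSet t ∧ μ.real t = c := by
  choose! G hG1 hG2 hG3 hG4 using fun (B : Set Ω) (hB : μ.real B ≤ c) =>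
    greedy (μ := μ) (s := s) B hB
  let B : ℕ → Set Ω := fun n => Nat.rec ∅ (fun _ b => b ∪ G b) n
  have hB1 : ∀ n, B (n + 1) = B n ∪ G (B n) := fun n => rfl
  have hBc : ∀ n, μ.real (B n) ≤ c ∧ MeasurableSet (B n) ∧ B n ⊆ s := by
    intro n
    induction n with
    | zero => exact ⟨by simpa [B] using h0, MeasurableSet.empty, empty_subset _⟩
    | succ n ih =>
      rw [hB1]
      refine ⟨(measureReal_union_le _ _).trans (hG3 _ ih.1), ih.2.1.union (hG2 _ ih.1),
        union_subset ih.2.2 ((hG1 _ ih.1).trans sdiff_subset)⟩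
  have hmono : Monotone B := monotone_nat_of_le_succ fun n => by rw [hB1]; exact subset_union_left
  set T : Set Ω := ⋃ n, B n with hT
  have hTm : MeasurableSet T := MeasurableSet.iUnion fun n => (hBc n).2.1
  have hTs : T ⊆ s := iUnion_subset fun n => (hBc n).2.2
  have hlim : Tendsto (fun n => μ.real (B n)) atTop (𝓝 (μ.real T)) := by
    have h1 := tendsto_measure_iUnion_atTop (μ := μ) hmono
    exact (ENNReal.tendsto_toReal (measure_ne_top _ _)).comp h1
  have hTc : μ.real T ≤ c := le_of_tendsto' hlim fun n => (hBc n).1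
  refine ⟨T, hTs, hTm, le_antisymm hTc ?_⟩
  by_contra hlt
  push Not at hlt
  have h1 : μ.real (s \ T) = μ.real s - μ.real T := measureReal_sdiff hTs hTm
  obtain ⟨D, hD, hDm, hD0, hDe⟩ := h.small' (hs.diff hTm) (by rw [h1]; linarith)
    (show 0 < c - μ.real T by linarith)
  have h2 : ∀ n, μ.real D ≤ 2 * μ.real (G (B n)) := by
    intro n
    refine hG4 (B n) (hBc n).1 D ?_ hDm ?_
    · intro x hx
      exact ⟨(hD hx).1, fun hxB => (hD hx).2 (mem_iUnion.2 ⟨n, hxB⟩)⟩
    · have : μ.real (B n) ≤ μ.real T := measureReal_mono (subset_iUnion B n)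
      linarith
  have h3 : ∀ n : ℕ, n * (μ.real D / 2) ≤ μ.real (B n) := by
    intro n
    induction n with
    | zero => simp
    | succ n ih =>
      rw [hB1, measureReal_union _ (hG2 _ (hBc n).1)]
      · have := h2 n
        push_cast
        linarith
      · exact disjoint_left.2 fun x hx hx' => (hG1 _ (hBc n).1 hx').2 hx
  obtain ⟨n, hn⟩ := exists_nat_gt (c / (μ.real D / 2))
  rw [div_lt_iff₀ (by positivity)] at hn
  linarith [h3 n, (hBc n).1]

lemma Diffuse.step (h : Diffuse μ) {c : Ω → ℕ} (hc : Measurable c) :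
    ∃ c' : Ω → ℕ, Measurable c' ∧ ∀ j, ∃ k, μ.real (c' ⁻¹' {j}) ≤ μ.real (c ⁻¹' {k}) / 2 := by
  have hm : ∀ k, MeasurableSet (c ⁻¹' {k}) := fun k => hc (measurableSet_singleton k)
  choose T hT hTm hTc using fun k => h.exists_set (hm k)
    (show 0 ≤ μ.real (c ⁻¹' {k}) / 2 by positivity) (half_le_self measureReal_nonneg)
  classical
  set A : Set Ω := ⋃ k, T k with hA
  have hAm : MeasurableSet A := MeasurableSet.iUnion hTm
  refine ⟨fun ω => 2 * c ω + if ω ∈ A then 1 else 0, ?_, fun j => ⟨j / 2, ?_⟩⟩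
  · exact ((measurable_const.mul hc)).add (Measurable.ite hAm measurable_const measurable_const)
  · have hAc : ∀ ω, ω ∈ A ↔ ω ∈ T (c ω) := by
      intro ω
      rw [hA, mem_iUnion]
      constructor
      · rintro ⟨k, hk⟩
        have : c ω = k := hT k hk
        rwa [this]
      · exact fun hk => ⟨_, hk⟩
    rcases Nat.even_or_odd j with hj | hj
    · have h1 : (fun ω => 2 * c ω + if ω ∈ A then 1 else 0) ⁻¹' {j} ⊆
          (c ⁻¹' {j / 2}) \ T (j / 2) := by
        intro ω hω
        rw [mem_preimage, mem_singleton_iff] at hω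
        obtain ⟨r, hr⟩ := hj
        by_cases hωA : ω ∈ A
        · rw [if_pos hωA] at hω; omega
        · rw [if_neg hωA] at hω
          have h2 : c ω = j / 2 := by omega
          refine ⟨h2, ?_⟩
          rw [← h2, ← hAc]
          exact hωA
      refine (measureReal_mono h1).trans ?_
      rw [measureReal_sdiff (hT _) (hTm _), hTc]
      linarith
    · have h1 : (fun ω => 2 * c ω + if ω ∈ A then 1 else 0) ⁻¹' {j} ⊆ T (j / 2) := by
        intro ω hω
        rw [mem_preimage, mem_singleton_iff] at hω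
        obtain ⟨r, hr⟩ := hj
        by_cases hωA : ω ∈ A
        · rw [if_pos hωA] at hω
          have h2 : c ω = j / 2 := by omega
          rw [← h2, ← hAc]
          exact hωA
        · rw [if_neg hωA] at hω; omega
      refine (measureReal_mono h1).trans ?_
      rw [hTc]

/-- On a non-atomic probability space there is a measurable real function whose law has no
point masses. -/
theorem Diffuse.exists_real {μ : Measure Ω} [IsProbabilityMeasure μ] (h : Diffuse μ) :
    ∃ X : Ω → ℝ, Measurable X ∧ ∀ x, μ (X ⁻¹' {x}) = 0 := by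
  choose! F hF1 hF2 using fun (c : Ω → ℕ) (hc : Measurable c) => h.step hc
  let c : ℕ → Ω → ℕ := fun n => Nat.rec (fun _ => 0) (fun _ b => F b) n
  have hc1 : ∀ n, c (n + 1) = F (c n) := fun n => rfl
  have hcm : ∀ n, Measurable (c n) := by
    intro n
    induction n with
    | zero => exact measurable_const
    | succ n ih => rw [hc1]; exact hF1 _ ih
  have hcb : ∀ n j, μ.real (c n ⁻¹' {j}) ≤ (1 / 2) ^ n := by
    intro n
    induction n with
    | zero => intro j; simp
    | succ n ih =>
      intro j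
      rw [hc1]
      obtain ⟨k, hk⟩ := hF2 _ (hcm n) j
      refine hk.trans ?_
      rw [pow_succ]
      linarith [ih k]
  have he := measurableEmbedding_embeddingReal (ℕ → ℕ)
  have hV : Measurable (fun ω n => c n ω) := measurable_pi_iff.2 hcm
  refine ⟨fun ω => embeddingReal (ℕ → ℕ) (fun n => c n ω), he.measurable.comp hV, fun x => ?_⟩
  have h1 : ∀ n, μ.real ((fun ω => embeddingReal (ℕ → ℕ) (fun n => c n ω)) ⁻¹' {x}) ≤
      (1 / 2) ^ n := by
    intro n
    by_cases hx : ∃ s, embeddingReal (ℕ → ℕ) s = x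
    · obtain ⟨s, rfl⟩ := hx
      refine (measureReal_mono ?_).trans (hcb n (s n))
      intro ω hω
      rw [mem_preimage, mem_singleton_iff] at hω
      have := he.injective hω
      rw [mem_preimage, mem_singleton_iff, ← this]
    · have : (fun ω => embeddingReal (ℕ → ℕ) (fun n => c n ω)) ⁻¹' {x} = ∅ := by
        rw [eq_empty_iff_forall_notMem]
        intro ω hω
        exact hx ⟨_, hω⟩
      rw [this, measureReal_empty]
      positivity
  have h2 := tendsto_pow_atTop_nhds_zero_of_lt_one (show (0 : ℝ) ≤ 1 / 2 by norm_num)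
    (by norm_num)
  have h3 := ge_of_tendsto' h2 h1
  have h4 := le_antisymm h3 measureReal_nonneg
  rwa [measureReal_eq_zero_iff] at h4

lemma law_cdf (ν : Measure ℝ) [IsProbabilityMeasure ν] (h : ∀ x, ν {x} = 0) {a : ℝ}
    (ha : a ∈ Ioo (0 : ℝ) 1) : ν.real {x | cdf ν x ≤ a} = a := by
  have hcont : Continuous (cdf ν) := by
    rw [continuous_iff_continuousAt]
    intro x
    rw [(monotone_cdf ν).continuousAt_iff_leftLim_eq_rightLim, StieltjesFunction.rightLim_eq]
    have h1 := h x
    rw [← measure_cdf ν, StieltjesFunction.measure_singleton, ENNReal.ofReal_eq_zero] at h1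
    exact le_antisymm ((monotone_cdf ν).leftLim_le le_rfl) (by linarith)
  have hsurj : ∀ b ∈ Ioo (0 : ℝ) 1, ∃ t, cdf ν t = b := by
    intro b hb
    have h3 : ∃ t, cdf ν t ≤ b := (((tendsto_cdf_atBot ν).eventually_le_const hb.1)).exists
    have h4 : ∃ t, b ≤ cdf ν t := (((tendsto_cdf_atTop ν).eventually_const_le hb.2)).exists
    exact mem_range_of_exists_le_of_exists_ge hcont h3 h4
  refine le_antisymm ?_ ?_
  · refine le_of_forall_gt_imp_ge_of_dense fun b hb => ?_
    rcases lt_or_ge b 1 with hb1 | hb1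
    · obtain ⟨t, ht⟩ := hsurj b ⟨ha.1.trans hb, hb1⟩
      refine (measureReal_mono (s₂ := Iic t) fun x hx => ?_).trans ?_
      · rw [mem_Iic]
        by_contra hlt
        push Not at hlt
        have := monotone_cdf ν hlt.le
        have hx' : cdf ν x ≤ a := hx
        linarith
      · rw [← cdf_eq_real, ht]
    · exact measureReal_le_one.trans hb1
  · obtain ⟨t, ht⟩ := hsurj a ha
    have h1 : Iic t ⊆ {x | cdf ν x ≤ a} := fun x hx => (monotone_cdf ν hx).trans ht.le
    refine le_trans ?_ (measureReal_mono h1)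
    rw [← cdf_eq_real, ht]

/-- The distribution function of a law without point masses is uniformly distributed. -/
theorem exists_uniform (ν : Measure ℝ) [IsProbabilityMeasure ν] (h : ∀ x, ν {x} = 0) :
    ∃ U : ℝ → unitInterval, Measurable U ∧ ν.map U = volume := by
  have hm : Measurable (fun x => (⟨cdf ν x, cdf_nonneg ν x, cdf_le_one ν x⟩ : unitInterval)) :=
    Measurable.subtype_mk (monotone_cdf ν).measurable
  refine ⟨_, hm, ?_⟩
  have : IsProbabilityMeasure (ν.map fun x =>
    (⟨cdf ν x, cdf_nonneg ν x, cdf_le_one ν x⟩ : unitInterval)) :=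
    Measure.isProbabilityMeasure_map hm.aemeasurable
  refine Measure.ext_of_Iic _ _ fun a => ?_
  rw [Measure.map_apply hm measurableSet_Iic, unitInterval.volume_Iic]
  have hset : (fun x => (⟨cdf ν x, cdf_nonneg ν x, cdf_le_one ν x⟩ : unitInterval)) ⁻¹' Iic a =
      {x | cdf ν x ≤ a} := rfl
  rw [hset]
  have key : ν.real {x | cdf ν x ≤ a} = a := by
    rcases eq_or_lt_of_le a.2.1 with h0 | h0
    · rw [← h0]
      refine le_antisymm ?_ measureReal_nonneg
      refine le_of_forall_gt_imp_ge_of_dense fun b hb => ?_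
      rcases lt_or_ge b 1 with hb1 | hb1
      · rw [← law_cdf ν h ⟨hb, hb1⟩]
        exact measureReal_mono fun x (hx : cdf ν x ≤ 0) => hx.trans hb.le
      · exact measureReal_le_one.trans hb1
    · rcases eq_or_lt_of_le a.2.2 with h1 | h1
      · have : {x | cdf ν x ≤ a} = univ := eq_univ_of_forall fun x => by
          show cdf ν x ≤ a
          rw [h1]; exact cdf_le_one ν x
        rw [this, h1, probReal_univ]
      · exact law_cdf ν h ⟨h0, h1⟩
  rw [← ofReal_measureReal, key]

/-- A non-atomic probability space carries measurable maps with arbitrary laws on standard Borel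
spaces. -/
theorem Diffuse.exists_map {μ : Measure Ω} [IsProbabilityMeasure μ] (h : Diffuse μ) {S : Type*}
    [MeasurableSpace S] [StandardBorelSpace S] (P : Measure S) [IsProbabilityMeasure P] :
    ∃ V : Ω → S, Measurable V ∧ μ.map V = P := by
  obtain ⟨X, hX, hX0⟩ := h.exists_real
  have : IsProbabilityMeasure (μ.map X) := Measure.isProbabilityMeasure_map hX.aemeasurable
  obtain ⟨U, hU, hUm⟩ := exists_uniform (μ.map X) (fun x => by
    rw [Measure.map_apply hX (measurableSet_singleton x)]; exact hX0 x)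
  have : Nonempty S := nonempty_of_isProbabilityMeasure P
  obtain ⟨f, hf, hfm⟩ := P.exists_measurable_map_eq
  refine ⟨f ∘ U ∘ X, hf.comp (hU.comp hX), ?_⟩
  rw [← Measure.map_map hf (hU.comp hX), ← Measure.map_map hU hX, hUm, hfm]

end Q192.NA
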