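import Mathlib

/-!
# A form of Simons' inequality
-/

set_option autoImplicit false

open Filter Topology Set

namespace Q192.NA

variable {E : Type*} [NormedAddCommGroup E] [NormedSpace ℝ E]

/-- The closed convex hulls of the tails. -/
def tail (f : ℕ → E) (n : ℕ) : Set E := closure (convexHull ℝ (f '' Ici n))

lemma tail_closed (f : ℕ → E) (n : ℕ) : IsClosed (tail f n) := isClosed_closure

lemma tail_convex (f : ℕ → E) (n : ℕ) : Convex ℝ (tail f n) := (convex_convexHull ℝ _).closure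

lemma tail_anti (f : ℕ → E) {n k : ℕ} (h : n ≤ k) : tail f k ⊆ tail f n :=
  closure_mono (convexHull_mono (image_mono (Ici_subset_Ici.2 h)))

lemma mem_tail (f : ℕ → E) (n : ℕ) : f n ∈ tail f n :=
  subset_closure (subset_convexHull ℝ _ ⟨n, mem_Ici.2 le_rfl, rfl⟩)

lemma tail_norm_le {f : ℕ → E} {M : ℝ} (hM : ∀ n, ‖f n‖ ≤ M) (n : ℕ) :
    ∀ x ∈ tail f n, ‖x‖ ≤ M := by
  have h1 : tail f n ⊆ Metric.closedBall (0 : E) M := by
    refine closure_minimal (convexHull_min ?_ (convex_closedBall _ _)) Metric.isClosed_closedBall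
    rintro _ ⟨k, -, rfl⟩
    simpa using hM k
  intro x hx
  simpa using h1 hx

lemma tail_norm_ge {f : ℕ → E} {δ : ℝ} (hδ : ∀ x ∈ convexHull ℝ (range f), δ ≤ ‖x‖) (n : ℕ) :
    ∀ x ∈ tail f n, δ ≤ ‖x‖ := by
  have h1 : tail f n ⊆ {x : E | δ ≤ ‖x‖} := by
    refine closure_minimal (fun x hx => ?_) (isClosed_le continuous_const continuous_norm)
    exact hδ x (convexHull_mono (image_subset_range _ _) hx)
  exact h1

lemma tail_le (f : ℕ → E) (b : E →L[ℝ] ℝ) {t : ℝ} (n : ℕ) (h : ∀ k, n ≤ k → b (f k) ≤ t) :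
    ∀ x ∈ tail f n, b x ≤ t := by
  have h1 : tail f n ⊆ {x : E | b x ≤ t} := by
    refine closure_minimal (convexHull_min ?_ ?_) (isClosed_le b.continuous continuous_const)
    · rintro _ ⟨k, hk, rfl⟩
      exact h k hk
    · exact convex_halfSpace_le b.toLinearMap.isLinear t
  exact h1

lemma exists_near (f : ℕ → E) (n : ℕ) (s : E) (c : ℝ) {e : ℝ} (he : 0 < e) :
    ∃ y ∈ tail f n, ∀ z ∈ tail f n, ‖s + c • y‖ ≤ ‖s + c • z‖ + e := by
  set S : Set ℝ := (fun z => ‖s + c • z‖) '' tail f n with hS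
  have hne : S.Nonempty := ⟨_, ⟨f n, mem_tail f n, rfl⟩⟩
  have hbd : BddBelow S := ⟨0, by
    rintro _ ⟨z, -, rfl⟩
    exact norm_nonneg _⟩
  obtain ⟨a, ⟨y, hy, rfl⟩, ha⟩ := Real.lt_sInf_add_pos hne he
  refine ⟨y, hy, fun z hz => ?_⟩
  have h1 : sInf S ≤ ‖s + c • z‖ := csInf_le hbd ⟨z, hz, rfl⟩
  have h2 : ‖s + c • y‖ < sInf S + e := ha
  linarith

/-- A form of Simons' inequality: a bounded sequence whose convex hull stays away from the origin
does not tend to zero pointwise on a boundary. -/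
theorem simons [CompleteSpace E] (f : ℕ → E) {M : ℝ} (hM : ∀ n, ‖f n‖ ≤ M) {δ : ℝ} (hδ : 0 < δ)
    (hconv : ∀ x ∈ convexHull ℝ (range f), δ ≤ ‖x‖)
    (B : Set (E →L[ℝ] ℝ)) (hB : ∀ b ∈ B, ∀ x, b x ≤ ‖x‖) (hatt : ∀ x, ∃ b ∈ B, b x = ‖x‖)
    (hlim : ∀ b ∈ B, Tendsto (fun n => b (f n)) atTop (𝓝 0)) : False := by
  have hM0 : 0 ≤ M := (norm_nonneg _).trans (hM 0)
  -- the parameters
  set l : ℝ := min (1 / 2) (δ / (8 * (M + 1))) with hl
  have hl0 : 0 < l := lt_min (by norm_num) (by positivity)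
  have hl2 : l ≤ 1 / 2 := min_le_left _ _
  have hlM : M * l ≤ δ / 8 := by
    have h1 : l ≤ δ / (8 * (M + 1)) := min_le_right _ _
    have h2 : M * l ≤ (M + 1) * (δ / (8 * (M + 1))) := by
      refine mul_le_mul (by linarith) h1 hl0.le (by linarith)
    have h3 : (M + 1) * (δ / (8 * (M + 1))) = δ / 8 := by
      have : M + 1 ≠ 0 := by linarith
      field_simp
    linarith
  set e : ℝ := δ / 4 with he
  have he0 : 0 < e := by positivity
  choose Y hY hY' using fun (n : ℕ) (s : E) =>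
    exists_near f n s (l ^ n) (e := e * (l / 2) ^ (n + 1)) (by positivity)
  let s : ℕ → E := fun n => Nat.rec 0 (fun n t => t + l ^ n • Y n t) n
  have hs0 : s 0 = 0 := rfl
  have hs1 : ∀ n, s (n + 1) = s n + l ^ n • Y n (s n) := fun n => rfl
  have hYn : ∀ n, ‖Y n (s n)‖ ≤ M := fun n => tail_norm_le hM n _ (hY n (s n))
  have hd : ∀ n, dist (s n) (s (n + 1)) ≤ M * l ^ n := by
    intro n
    rw [dist_eq_norm, hs1, sub_add_cancel_left, norm_neg, norm_smul, Real.norm_of_nonneg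
      (by positivity), mul_comm]
    exact mul_le_mul_of_nonneg_right (hYn n) (by positivity)
  have hl1 : l < 1 := by linarith
  have hcs : CauchySeq s := cauchySeq_of_le_geometric l M hl1 hd
  obtain ⟨S, hS⟩ := cauchySeq_tendsto_of_complete hcs
  have hSd : ∀ n, ‖S - s n‖ ≤ M * l ^ n / (1 - l) := by
    intro n
    have h := dist_le_of_le_geometric_of_tendsto l M hl1 hd hS n
    rwa [dist_comm, dist_eq_norm] at h
  -- the normalized tails
  have hfin : ∀ n k, ∃ c ∈ tail f n, (1 - l) • (s (n + k) - s n) = (l ^ n - l ^ (n + k)) • c := by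
    intro n k
    induction k with
    | zero => exact ⟨f n, mem_tail f n, by simp⟩
    | succ k ih =>
      obtain ⟨c, hc, hck⟩ := ih
      have hy : Y (n + k) (s (n + k)) ∈ tail f n := tail_anti f (Nat.le_add_right n k) (hY _ _)
      have hw1 : 0 ≤ l ^ n - l ^ (n + k) :=
        sub_nonneg.2 (pow_le_pow_of_le_one hl0.le hl1.le (Nat.le_add_right n k))
      have hw2 : 0 ≤ (1 - l) * l ^ (n + k) := mul_nonneg (by linarith) (by positivity)
      have hw3 : 0 < l ^ n - l ^ (n + (k + 1)) :=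
        sub_pos.2 (pow_lt_pow_right_of_lt_one₀ hl0 hl1 (by omega))
      have hw4 : (l ^ n - l ^ (n + k)) + (1 - l) * l ^ (n + k) = l ^ n - l ^ (n + (k + 1)) := by
        rw [← add_assoc, pow_succ]; ring
      refine ⟨((l ^ n - l ^ (n + k)) / (l ^ n - l ^ (n + (k + 1)))) • c +
        (((1 - l) * l ^ (n + k)) / (l ^ n - l ^ (n + (k + 1)))) • Y (n + k) (s (n + k)), ?_, ?_⟩
      · refine tail_convex f n hc hy (by positivity) (by positivity) ?_
        rw [← add_div, hw4, div_self hw3.ne']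
      · rw [← add_assoc, hs1, add_sub_right_comm, smul_add, hck, smul_smul, smul_add, smul_smul,
          smul_smul, add_assoc n k 1, mul_div_cancel₀ _ hw3.ne', mul_div_cancel₀ _ hw3.ne']
  have hz : ∀ n, ((1 - l) / l ^ n) • (S - s n) ∈ tail f n := by
    intro n
    have h1 : Tendsto (fun k => s (n + (k + 1))) atTop (𝓝 S) := by
      have := hS.comp (tendsto_add_atTop_nat (n + 1))
      refine this.congr (fun k => ?_)
      show s (k + (n + 1)) = s (n + (k + 1))
      rw [show k + (n + 1) = n + (k + 1) by omega]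
    have h2 : Tendsto (fun k : ℕ => l ^ (n + (k + 1))) atTop (𝓝 0) := by
      have h3 := tendsto_pow_atTop_nhds_zero_of_lt_one hl0.le hl1
      have := h3.comp (tendsto_add_atTop_nat (n + 1))
      refine this.congr (fun k => ?_)
      show l ^ (k + (n + 1)) = l ^ (n + (k + 1))
      rw [show k + (n + 1) = n + (k + 1) by omega]
    have h4 : Tendsto (fun k : ℕ => ((1 - l) / (l ^ n - l ^ (n + (k + 1)))) • (s (n + (k + 1)) - s n))
        atTop (𝓝 (((1 - l) / (l ^ n - 0)) • (S - s n))) := by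
      refine Tendsto.smul ?_ (h1.sub_const _)
      refine Tendsto.div tendsto_const_nhds (tendsto_const_nhds.sub h2) ?_
      rw [sub_zero]; positivity
    rw [sub_zero] at h4
    refine (tail_closed f n).mem_of_tendsto h4 (Eventually.of_forall fun k => ?_)
    obtain ⟨c, hc, hck⟩ := hfin n (k + 1)
    have hw3 : 0 < l ^ n - l ^ (n + (k + 1)) :=
      sub_pos.2 (pow_lt_pow_right_of_lt_one₀ hl0 hl1 (by omega))
    have : ((1 - l) / (l ^ n - l ^ (n + (k + 1)))) • (s (n + (k + 1)) - s n) = c := by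
      rw [div_eq_inv_mul, mul_smul, hck, smul_smul, inv_mul_cancel₀ hw3.ne', one_smul]
    rw [this]; exact hc
  -- the norms of the partial sums
  have hsn : ∀ n, ‖s n‖ ≤ ‖S‖ * (1 - l ^ n) + e * l ^ n * (1 - (1 / 2) ^ n) := by
    intro n
    induction n with
    | zero => simp [hs0]
    | succ n ih =>
      have h1 := hY' n (s n) _ (hz n)
      have h2 : s n + l ^ n • ((1 - l) / l ^ n) • (S - s n) = l • s n + (1 - l) • S := by
        rw [smul_smul, mul_div_cancel₀ _ (pow_pos hl0 n).ne', smul_sub, sub_smul, sub_smul,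
          one_smul, one_smul]
        abel
      rw [h2] at h1
      have h3 : ‖l • s n + (1 - l) • S‖ ≤ l * ‖s n‖ + (1 - l) * ‖S‖ := by
        refine (norm_add_le _ _).trans ?_
        rw [norm_smul, norm_smul, Real.norm_of_nonneg hl0.le, Real.norm_of_nonneg (by linarith)]
      have h4 : l * ‖s n‖ ≤ l * (‖S‖ * (1 - l ^ n) + e * l ^ n * (1 - (1 / 2) ^ n)) :=
        mul_le_mul_of_nonneg_left ih hl0.le
      rw [hs1]
      refine h1.trans ?_
      have h5 : e * (l / 2) ^ (n + 1) = e * l ^ (n + 1) * (1 / 2) ^ (n + 1) := by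
        rw [div_eq_mul_one_div, mul_pow]; ring
      rw [h5]
      have h6 : l * (‖S‖ * (1 - l ^ n) + e * l ^ n * (1 - (1 / 2) ^ n)) + (1 - l) * ‖S‖ +
          e * l ^ (n + 1) * (1 / 2) ^ (n + 1) =
          ‖S‖ * (1 - l ^ (n + 1)) + e * l ^ (n + 1) * (1 - (1 / 2) ^ (n + 1)) := by
        rw [pow_succ, pow_succ]; ring
      linarith
  have hsn' : ∀ n, ‖s n‖ ≤ ‖S‖ * (1 - l ^ n) + e * l ^ n := by
    intro n
    refine (hsn n).trans ?_
    have h1 : e * l ^ n * (1 - (1 / 2) ^ n) ≤ e * l ^ n * 1 := by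
      refine mul_le_mul_of_nonneg_left ?_ (by positivity)
      have : (0 : ℝ) ≤ (1 / 2) ^ n := by positivity
      linarith
    linarith
  have hSδ : δ ≤ ‖S‖ := by
    have h1 := tail_norm_ge hconv 0 _ (hz 0)
    rw [hs0, sub_zero, pow_zero, div_one, norm_smul, Real.norm_of_nonneg (by linarith)] at h1
    have h2 : (1 - l) * ‖S‖ ≤ 1 * ‖S‖ := mul_le_mul_of_nonneg_right (by linarith) (norm_nonneg _)
    linarith
  obtain ⟨b, hbB, hb⟩ := hatt S
  have hev := (hlim b hbB).eventually_le_const (show (0 : ℝ) < δ / 4 by positivity)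
  obtain ⟨N, hN⟩ := eventually_atTop.1 hev
  have hbN : b (Y N (s N)) ≤ δ / 4 := tail_le f b N hN _ (hY N (s N))
  have h1 : b (l ^ N • Y N (s N)) = b (S - s N) - b (S - s (N + 1)) := by
    rw [← map_sub, hs1]; congr 1; abel
  rw [map_smul, smul_eq_mul] at h1
  have h2 : b (S - s N) ≥ l ^ N * (‖S‖ - e) := by
    rw [map_sub, hb]
    have h3 := hB b hbB (s N)
    have h4 := hsn' N
    nlinarith
  have h3 : b (S - s (N + 1)) ≤ l ^ N * (2 * (M * l)) := by
    refine (hB b hbB _).trans ((hSd (N + 1)).trans ?_)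
    rw [div_le_iff₀ (by linarith), pow_succ]
    have h5 : 0 ≤ M * l * l ^ N := by positivity
    nlinarith
  have h4 : l ^ N * (‖S‖ - e - 2 * (M * l)) ≤ l ^ N * b (Y N (s N)) := by
    rw [h1]; nlinarith
  have h5 : ‖S‖ - e - 2 * (M * l) ≤ b (Y N (s N)) := le_of_mul_le_mul_left h4 (by positivity)
  linarith

end Q192.NA
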