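import Mathlib

/-!
# Bounded orthogonal sequences of vector valued functions tend weakly to zero
-/

set_option autoImplicit false

open Filter Topology Set MeasureTheory

open scoped ComplexConjugate ENNReal

namespace Q192.NA

variable {𝕜 : Type*} [RCLike 𝕜]

/-- A bounded orthogonal sequence in an inner product space tends weakly to zero. -/
lemma orth_tendsto {H : Type*} [NormedAddCommGroup H] [InnerProductSpace 𝕜 H] (u : ℕ → H) {M : ℝ}
    (hM : ∀ n, ‖u n‖ ≤ M) (ho : ∀ n k, n ≠ k → inner 𝕜 (u n) (u k) = 0) (v : H) :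
    Tendsto (fun n => inner 𝕜 (u n) v) atTop (𝓝 0) := by
  have hM0 : 0 ≤ M := (norm_nonneg _).trans (hM 0)
  set a : ℕ → 𝕜 := fun n => inner 𝕜 (u n) v with ha
  set S : ℕ → H := fun N => ∑ n ∈ Finset.range N, a n • u n with hS
  have hSS : ∀ N, S (N + 1) = S N + a N • u N := fun N => Finset.sum_range_succ _ _
  have horth : ∀ N k, N ≤ k → inner 𝕜 (S N) (u k) = 0 := by
    intro N k hk
    rw [hS, sum_inner]
    refine Finset.sum_eq_zero fun n hn => ?_
    rw [inner_smul_left, ho n k (by have := Finset.mem_range.1 hn; omega), mul_zero]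
  have hnorm : ∀ N, ‖S N‖ ^ 2 ≤ M ^ 2 * ∑ n ∈ Finset.range N, ‖a n‖ ^ 2 := by
    intro N
    induction N with
    | zero => simp [hS]
    | succ N ih =>
      have h1 : inner 𝕜 (S N) (a N • u N) = 0 := by
        rw [inner_smul_right, horth N N le_rfl, mul_zero]
      have h2 := norm_add_sq_eq_norm_sq_add_norm_sq_of_inner_eq_zero (𝕜 := 𝕜) (S N) (a N • u N) h1
      rw [hSS, Finset.sum_range_succ, mul_add]
      have h3 : ‖a N • u N‖ * ‖a N • u N‖ ≤ M ^ 2 * ‖a N‖ ^ 2 := by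
        rw [norm_smul]
        have h4 : ‖u N‖ * ‖u N‖ ≤ M * M := mul_self_le_mul_self (norm_nonneg _) (hM N)
        have h5 : 0 ≤ ‖a N‖ * ‖a N‖ := by positivity
        nlinarith
      nlinarith
  have hinner : ∀ N, inner 𝕜 (S N) v = ((∑ n ∈ Finset.range N, ‖a n‖ ^ 2 : ℝ) : 𝕜) := by
    intro N
    rw [hS, sum_inner]
    push_cast
    refine Finset.sum_congr rfl fun n _ => ?_
    rw [inner_smul_left]
    show conj (a n) * a n = _
    rw [RCLike.conj_mul]
  have hbound : ∀ N, ∑ n ∈ Finset.range N, ‖a n‖ ^ 2 ≤ M ^ 2 * ‖v‖ ^ 2 := by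
    intro N
    set T : ℝ := ∑ n ∈ Finset.range N, ‖a n‖ ^ 2 with hT
    have hT0 : 0 ≤ T := Finset.sum_nonneg fun _ _ => by positivity
    have h1 : T ≤ ‖S N‖ * ‖v‖ := by
      have h2 := norm_inner_le_norm (𝕜 := 𝕜) (S N) v
      rw [hinner, RCLike.norm_ofReal, abs_of_nonneg hT0] at h2
      exact h2
    have h2 := hnorm N
    have h3 : T ^ 2 ≤ (M ^ 2 * T) * ‖v‖ ^ 2 := by
      calc T ^ 2 ≤ (‖S N‖ * ‖v‖) ^ 2 := by gcongr
        _ = ‖S N‖ ^ 2 * ‖v‖ ^ 2 := by ring
        _ ≤ (M ^ 2 * T) * ‖v‖ ^ 2 := by gcongr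
    rcases eq_or_lt_of_le hT0 with h4 | h4
    · rw [← h4]; positivity
    · nlinarith
  have hsum : Summable fun n => ‖a n‖ ^ 2 :=
    summable_of_sum_range_le (fun _ => by positivity) hbound
  have h1 := hsum.tendsto_atTop_zero
  rw [tendsto_zero_iff_norm_tendsto_zero]
  have h2 := (Real.continuous_sqrt.tendsto 0).comp h1
  rw [Real.sqrt_zero] at h2
  refine h2.congr fun n => ?_
  simp [Real.sqrt_sq (norm_nonneg _)]

variable {Ω : Type*} [MeasurableSpace Ω] {μ : Measure Ω} [IsFiniteMeasure μ]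

/-- Bounded orthogonal scalar functions: the integrals over measurable sets tend to zero. -/
lemma tendsto_setIntegral_of_orth (u : ℕ → Ω → 𝕜) (hu : ∀ n, StronglyMeasurable (u n)) {M : ℝ}
    (hM0 : 0 ≤ M)
    (hM : ∀ n ω, ‖u n ω‖ ≤ M) (ho : ∀ n k, n ≠ k → ∫ ω, u n ω * conj (u k ω) ∂μ = 0) {A : Set Ω}
    (hA : MeasurableSet A) : Tendsto (fun n => ∫ ω in A, u n ω ∂μ) atTop (𝓝 0) := by
  have hmem : ∀ n, MemLp (u n) 2 μ := fun n =>
    MemLp.of_bound (hu n).aestronglyMeasurable M (Eventually.of_forall (hM n))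
  set U : ℕ → Lp 𝕜 2 μ := fun n => (hmem n).toLp (u n) with hU
  have hUn : ∀ n, ‖U n‖ ≤ (measureUnivNNReal μ : ℝ) ^ ((2 : ℝ≥0∞).toReal)⁻¹ * M := fun n =>
    Lp.norm_le_of_ae_bound hM0 (by
      filter_upwards [(hmem n).coeFn_toLp] with ω hω
      rw [hω]; exact hM n ω)
  have hUo : ∀ n k, n ≠ k → inner 𝕜 (U n) (U k) = 0 := by
    intro n k hnk
    rw [L2.inner_def]
    rw [← ho k n (Ne.symm hnk)]
    refine integral_congr_ae ?_
    filter_upwards [(hmem n).coeFn_toLp, (hmem k).coeFn_toLp] with ω h1 h2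
    rw [h1, h2, RCLike.inner_apply]
  have h1 := orth_tendsto U hUn hUo (indicatorConstLp 2 hA (measure_ne_top μ A) (1 : 𝕜))
  have h2 : Tendsto (fun n => conj (inner 𝕜 (U n)
      (indicatorConstLp 2 hA (measure_ne_top μ A) (1 : 𝕜)))) atTop (𝓝 (conj (0 : 𝕜))) :=
    (RCLike.continuous_conj.tendsto _).comp h1
  rw [map_zero] at h2
  refine h2.congr fun n => ?_
  rw [inner_conj_symm, L2.inner_indicatorConstLp_one]
  exact setIntegral_congr_ae hA ((hmem n).coeFn_toLp.mono fun ω h _ => h)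

variable {X : Type*} [NormedAddCommGroup X] [NormedSpace 𝕜 X]

omit [IsFiniteMeasure μ] in
/-- If the integrals of all functionals over all measurable sets tend to zero, so do the pairings
with all integrable functions. -/
lemma tendsto_pairing (h : ℕ → Ω → X) (hh : ∀ n, StronglyMeasurable (h n)) {M : ℝ}
    (hM : ∀ n ω, ‖h n ω‖ ≤ M)
    (ho : ∀ (x' : StrongDual 𝕜 X) (A : Set Ω), MeasurableSet A →
      Tendsto (fun n => ∫ ω in A, x' (h n ω) ∂μ) atTop (𝓝 0))
    {g : Ω → StrongDual 𝕜 X} (hg : Integrable g μ) :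
    Tendsto (fun n => ∫ ω, g ω (h n ω) ∂μ) atTop (𝓝 0) := by
  have hint : ∀ (f : Ω → StrongDual 𝕜 X), Integrable f μ → ∀ n,
      Integrable (fun ω => f ω (h n ω)) μ := by
    intro f hf n
    refine Integrable.mono' (hf.norm.mul_const M)
      ((ContinuousLinearMap.id 𝕜 (StrongDual 𝕜 X)).aestronglyMeasurable_comp₂
        hf.aestronglyMeasurable (hh n).aestronglyMeasurable) (Eventually.of_forall fun ω => ?_)
    exact ((f ω).le_opNorm _).trans (mul_le_mul_of_nonneg_left (hM n ω) (norm_nonneg _))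
  have hbd : ∀ (f : Ω → StrongDual 𝕜 X), Integrable f μ → ∀ n,
      ‖∫ ω, f ω (h n ω) ∂μ‖ ≤ M * ∫ ω, ‖f ω‖ ∂μ := by
    intro f hf n
    rw [← integral_const_mul]
    refine norm_integral_le_of_norm_le (hf.norm.const_mul M) (Eventually.of_forall fun ω => ?_)
    refine ((f ω).le_opNorm _).trans ?_
    rw [mul_comm]
    exact mul_le_mul_of_nonneg_right (hM n ω) (norm_nonneg _)
  refine hg.induction (P := fun g : Ω → StrongDual 𝕜 X =>
    Tendsto (fun n => ∫ ω, g ω (h n ω) ∂μ) atTop (𝓝 0))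
    ?_ ?_ ?_ ?_
  · intro c s hs _
    refine (ho c s hs).congr fun n => ?_
    rw [← integral_indicator hs]
    refine integral_congr_ae (Eventually.of_forall fun ω => ?_)
    by_cases hω : ω ∈ s <;> simp [hω]
  · intro f g _ hf hg h1 h2
    have h3 := h1.add h2
    rw [add_zero] at h3
    refine h3.congr fun n => ?_
    rw [← integral_add (hint f hf n) (hint g hg n)]
    rfl
  · rw [← isSeqClosed_iff_isClosed]
    intro F f hF hFf
    rw [Set.mem_ofPred_eq, Metric.tendsto_atTop]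
    intro e he
    rw [tendsto_iff_norm_sub_tendsto_zero] at hFf
    obtain ⟨k, hk⟩ := ((hFf.const_mul M).eventually_lt_const
      (show M * 0 < e / 2 by rw [mul_zero]; positivity)).exists
    have h1 : Tendsto (fun n => ∫ ω, F k ω (h n ω) ∂μ) atTop (𝓝 0) := hF k
    obtain ⟨N, hN⟩ := Metric.tendsto_atTop.1 h1 (e / 2) (by positivity)
    refine ⟨N, fun n hn => ?_⟩
    have h2 := hN n hn
    rw [dist_zero_right] at h2 ⊢
    have i1 := L1.integrable_coeFn (F k)
    have i2 := L1.integrable_coeFn f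
    have h3 : ‖∫ ω, (F k ω - f ω) (h n ω) ∂μ‖ ≤ M * ∫ ω, ‖F k ω - f ω‖ ∂μ :=
      hbd (fun ω => F k ω - f ω) (i1.sub i2) n
    have h4 : ∫ ω, ‖F k ω - f ω‖ ∂μ = ‖F k - f‖ := by
      rw [L1.norm_eq_integral_norm]
      refine integral_congr_ae ?_
      filter_upwards [Lp.coeFn_sub (F k) f] with ω hω
      rw [hω, Pi.sub_apply]
    have h5 : ∫ ω, (F k ω - f ω) (h n ω) ∂μ =
        ∫ ω, F k ω (h n ω) ∂μ - ∫ ω, f ω (h n ω) ∂μ := by
      rw [← integral_sub (hint _ i1 n) (hint _ i2 n)]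
      rfl
    rw [h4, h5] at h3
    have h6 := norm_sub_norm_le (∫ ω, f ω (h n ω) ∂μ) (∫ ω, F k ω (h n ω) ∂μ)
    rw [norm_sub_rev] at h6
    linarith
  · intro f g hfg _ h1
    refine h1.congr fun n => integral_congr_ae ?_
    filter_upwards [hfg] with ω hω
    rw [hω]

end Q192.NA
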