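import Pool.Agent.Q192.NA.Defs
import Pool.Agent.Q192.NA.Simons
import Pool.Agent.Q192.NA.Sier
import Pool.Agent.Q192.NA.Seq
import Pool.Agent.Q192.NA.Weak

/-!
# Norm attainment in Bochner spaces forces the Radon-Nikodym property of the dual
-/

set_option autoImplicit false

open Filter Topology Set MeasureTheory

open scoped ComplexConjugate ENNReal

namespace Q192.NA

universe w

variable {𝕜 : Type*} [RCLike 𝕜] {X : Type*} [NormedAddCommGroup X] [NormedSpace 𝕜 X]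
  [NormedSpace ℝ X] [IsScalarTower ℝ 𝕜 X] [CompleteSpace X]
variable {Ω : Type*} [MeasurableSpace Ω]

/-- The pairing of `L^p(X)` with `L^q(X*)`. -/
noncomputable def pair (𝕜 : Type*) [RCLike 𝕜] (X : Type*) [NormedAddCommGroup X] [NormedSpace 𝕜 X]
    (μ : Measure Ω) (p q : ℝ≥0∞) [Fact (1 ≤ p)] [Fact (1 ≤ q)] [ENNReal.HolderConjugate p q] :
    Lp X p μ →L[𝕜] Lp (StrongDual 𝕜 X) q μ →L[𝕜] 𝕜 :=
  (ContinuousLinearMap.id 𝕜 (StrongDual 𝕜 X)).flip.lpPairing μ p q

omit [NormedSpace ℝ X] [IsScalarTower ℝ 𝕜 X] [CompleteSpace X] in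
lemma pair_apply (μ : Measure Ω) (p q : ℝ≥0∞) [Fact (1 ≤ p)] [Fact (1 ≤ q)]
    [ENNReal.HolderConjugate p q] (f : Lp X p μ) (g : Lp (StrongDual 𝕜 X) q μ) :
    pair 𝕜 X μ p q f g = ∫ ω, g ω (f ω) ∂μ := by
  rw [pair, ContinuousLinearMap.lpPairing_eq_integral]
  rfl

omit [NormedSpace ℝ X] [IsScalarTower ℝ 𝕜 X] [CompleteSpace X] in
lemma norm_pair_le (μ : Measure Ω) (p q : ℝ≥0∞) [Fact (1 ≤ p)] [Fact (1 ≤ q)]
    [ENNReal.HolderConjugate p q] (f : Lp X p μ) (g : Lp (StrongDual 𝕜 X) q μ) :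
    ‖pair 𝕜 X μ p q f g‖ ≤ ‖f‖ * ‖g‖ := by
  have h1 := ContinuousLinearMap.norm_holder_apply_apply_le (r := 1)
    (ContinuousLinearMap.id 𝕜 (StrongDual 𝕜 X)).flip f g
  have h2 : ‖(ContinuousLinearMap.id 𝕜 (StrongDual 𝕜 X)).flip‖ ≤ 1 := by
    rw [ContinuousLinearMap.opNorm_flip]
    exact ContinuousLinearMap.norm_id_le
  have h3 : ‖pair 𝕜 X μ p q f g‖ ≤
      ‖(ContinuousLinearMap.id 𝕜 (StrongDual 𝕜 X)).flip.holder 1 f g‖ := by
    rw [pair_apply, L1.norm_eq_integral_norm]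
    refine (norm_integral_le_integral_norm _).trans (le_of_eq (integral_congr_ae ?_))
    filter_upwards [ContinuousLinearMap.coeFn_holder (r := 1)
      (ContinuousLinearMap.id 𝕜 (StrongDual 𝕜 X)).flip f g] with ω hω
    rw [hω]
    rfl
  refine h3.trans (h1.trans ?_)
  calc ‖(ContinuousLinearMap.id 𝕜 (StrongDual 𝕜 X)).flip‖ * ‖f‖ * ‖g‖ ≤ 1 * ‖f‖ * ‖g‖ := by
        gcongr
    _ = ‖f‖ * ‖g‖ := by ring

theorem contra {μ : Measure Ω} [IsProbabilityMeasure μ] {p q : ℝ≥0∞} [Fact (1 ≤ p)]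
    [Fact (1 ≤ q)] [ENNReal.HolderConjugate p q]
    (h : ℕ → Ω → X) (hh : ∀ n, StronglyMeasurable (h n)) (hM : ∀ n ω, ‖h n ω‖ ≤ 2) {δ : ℝ}
    (hδ : 0 < δ)
    (hconv : ∀ (s : Finset ℕ) (w : ℕ → ℝ), (∀ n ∈ s, 0 ≤ w n) → ∑ n ∈ s, w n = 1 →
      δ ≤ ∫ ω, ‖∑ n ∈ s, w n • h n ω‖ ∂μ)
    (ho : ∀ (x' : StrongDual 𝕜 X) (n k : ℕ), n ≠ k →
      ∫ ω, x' (h n ω) * conj (x' (h k ω)) ∂μ = 0)
    (hatt : ∀ f : Lp X p μ, ∃ g : Lp (StrongDual 𝕜 X) q μ,
      ‖g‖ ≤ 1 ∧ ∫ ω, g ω (f ω) ∂μ = (‖f‖ : 𝕜)) : False := by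
  have hmem : ∀ n, MemLp (h n) p μ := fun n =>
    MemLp.of_bound (hh n).aestronglyMeasurable 2 (Eventually.of_forall (hM n))
  set F : ℕ → Lp X p μ := fun n => (hmem n).toLp (h n) with hF
  have hFn : ∀ n, ‖F n‖ ≤ 2 := by
    intro n
    have h1 := Lp.norm_le_of_ae_bound (f := F n) (C := 2) (by norm_num) (by
      filter_upwards [(hmem n).coeFn_toLp] with ω hω
      rw [hω]; exact hM n ω)
    simpa [measureUnivNNReal] using h1
  let b : Lp (StrongDual 𝕜 X) q μ → (Lp X p μ →L[ℝ] ℝ) := fun g =>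
    RCLike.reCLM.comp (((pair 𝕜 X μ p q).flip g).restrictScalars ℝ)
  have hb : ∀ g f, b g f = RCLike.re (∫ ω, g ω (f ω) ∂μ) := fun g f => by
    show RCLike.re (pair 𝕜 X μ p q f g) = _
    rw [pair_apply]
  refine simons F hFn hδ ?_ {c | ∃ g, ‖g‖ ≤ 1 ∧ c = b g} ?_ ?_ ?_
  · intro x hx
    rw [convexHull_range_eq_exists_affineCombination] at hx
    obtain ⟨s, w, hw, hw1, rfl⟩ := hx
    rw [Finset.affineCombination_eq_linear_combination _ _ _ hw1]
    refine (hconv s w hw hw1).trans ?_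
    set f : Lp X p μ := ∑ n ∈ s, w n • F n with hf
    have h1 : ∀ᵐ ω ∂μ, f ω = ∑ n ∈ s, w n • h n ω := by
      have h2 : ∀ᵐ ω ∂μ, ∀ n, (w n • F n : Lp X p μ) ω = w n • h n ω := by
        rw [ae_all_iff]
        intro n
        filter_upwards [Lp.coeFn_smul (w n) (F n), (hmem n).coeFn_toLp] with ω h3 h4
        rw [h3, Pi.smul_apply]
        congr 1
      have h5 := Lp.coeFn_finsetSum (p := p) (μ := μ) s (fun n => (w n • F n : Lp X p μ))
      filter_upwards [h2, h5] with ω h3 h4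
      rw [hf, h4, Finset.sum_apply]
      exact Finset.sum_congr rfl fun n _ => h3 n
    have h2 : ∫ ω, ‖∑ n ∈ s, w n • h n ω‖ ∂μ = ∫ ω, ‖f ω‖ ∂μ :=
      integral_congr_ae (h1.mono fun ω hω => by simp only [hω])
    rw [h2, integral_norm_eq_lintegral_enorm (Lp.aestronglyMeasurable f),
      ← eLpNorm_one_eq_lintegral_enorm, Lp.norm_def]
    exact ENNReal.toReal_mono (Lp.eLpNorm_ne_top f)
      (eLpNorm_le_eLpNorm_of_exponent_le (Fact.out : 1 ≤ p) (Lp.aestronglyMeasurable f))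
  · rintro _ ⟨g, hg, rfl⟩ f
    have h1 := norm_pair_le μ p q f g
    rw [pair_apply] at h1
    rw [hb]
    refine (RCLike.re_le_norm _).trans (h1.trans ?_)
    exact mul_le_of_le_one_right (norm_nonneg _) hg
  · intro f
    obtain ⟨g, hg, hgf⟩ := hatt f
    exact ⟨b g, ⟨g, hg, rfl⟩, by rw [hb, hgf, RCLike.ofReal_re]⟩
  · rintro _ ⟨g, -, rfl⟩
    have hgi : Integrable g μ := (Lp.memLp g).integrable (Fact.out : 1 ≤ q)
    have h1 := tendsto_pairing (𝕜 := 𝕜) (μ := μ) h hh hM (fun x' A hA =>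
      tendsto_setIntegral_of_orth (fun n ω => x' (h n ω))
        (fun n => x'.continuous.comp_stronglyMeasurable (hh n)) (M := ‖x'‖ * 2) (by positivity)
        (fun n ω => (x'.le_opNorm _).trans (mul_le_mul_of_nonneg_left (hM n ω) (norm_nonneg _)))
        (ho x') hA) hgi
    have h2 := (RCLike.continuous_re.tendsto (0 : 𝕜)).comp h1
    rw [map_zero] at h2
    refine h2.congr fun n => ?_
    rw [hb, Function.comp_apply]
    congr 1
    refine integral_congr_ae ?_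
    filter_upwards [(hmem n).coeFn_toLp] with ω hω
    rw [hω]

lemma transfer {Ω : Type*} [MeasurableSpace Ω] {Ω' : Type*} [MeasurableSpace Ω'] {μ : Measure Ω}
    {l : Measure Ω'} {V : Ω → ℕ → ℕ} {Q : Ω' → ℕ → ℕ} (hV : Measurable V) (hQ : Measurable Q)
    {c : ℝ≥0∞} (h : μ.map V = (c • l).map Q) {Z : Type*} [NormedAddCommGroup Z] [NormedSpace ℝ Z]
    (G : (ℕ → ℕ) → Z) (hG : StronglyMeasurable G) :
    ∫ ω, G (V ω) ∂μ = c.toReal • ∫ ω, G (Q ω) ∂l := by
  rw [← integral_map hV.aemeasurable hG.aestronglyMeasurable, h,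
    integral_map hQ.aemeasurable hG.aestronglyMeasurable, integral_smul_measure]

/-- Transfer to the non-atomic probability space. -/
theorem main {μ : Measure Ω} [IsProbabilityMeasure μ] (hμ : NonAtomic μ) {p q : ℝ≥0∞}
    [Fact (1 ≤ p)] [Fact (1 ≤ q)] [ENNReal.HolderConjugate p q]
    (hatt : EveryElementAttains 𝕜 X μ p q) : HasRNP.{w} (StrongDual 𝕜 X) := by
  intro Ω' _ ν _ m hac hvar
  set l : Measure Ω' := m.variation with hl
  have hfin : IsFiniteMeasure l := ⟨hvar⟩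
  have hlν : l ≪ ν := by
    refine Measure.AbsolutelyContinuous.mk fun s hs h0 => ?_
    rw [hl, VectorMeasure.variation_apply_eq_zero hs]
    intro t hts ht
    exact hac t ht (measure_mono_null hts h0)
  have hm : ∀ s, MeasurableSet s → ‖m s‖ ≤ 1 * l.real s := fun s _ => by
    rw [one_mul]
    exact VectorMeasure.norm_measure_le_variation (measure_ne_top l s)
  rcases density_or_moving hm zero_le_one with ⟨g, hg, hgs⟩ | ⟨e, he, hmv⟩
  · refine ⟨fun ω => (l.rnDeriv ν ω).toReal • g ω, (integrable_rnDeriv_smul_iff hlν).2 hg,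
      fun s hs => ?_⟩
    rw [hgs s hs, ← integral_indicator hs, ← integral_indicator hs, ← integral_rnDeriv_smul hlν]
    refine integral_congr_ae (Eventually.of_forall fun ω => ?_)
    by_cases hω : ω ∈ s <;> simp [hω]
  · exfalso
    obtain ⟨Q, z, δ, hδ, hQ, hz2, hconv, ho⟩ := exists_seq (𝕜 := 𝕜) (X := X) hm zero_lt_one he hmv
    have hl0 : l univ ≠ 0 := by
      intro h0
      have : l = 0 := Measure.measure_univ_eq_zero.1 h0
      have h1 := hconv {0} (fun _ => 1) (by simp) (by simp)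
      rw [this, integral_zero_measure] at h1
      linarith
    have hlt : l univ ≠ ∞ := measure_ne_top l _
    have hlr : 0 < l.real univ := ENNReal.toReal_pos hl0 hlt
    have hQm : Measurable (fun ω n => Q n ω) := measurable_pi_iff.2 hQ
    set P' : Measure Ω' := (l univ)⁻¹ • l with hP'
    have : IsProbabilityMeasure P' := ⟨by
      rw [hP', Measure.smul_apply, smul_eq_mul, ENNReal.inv_mul_cancel hl0 hlt]⟩
    set P : Measure (ℕ → ℕ) := P'.map (fun ω n => Q n ω) with hP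
    have : IsProbabilityMeasure P := Measure.isProbabilityMeasure_map hQm.aemeasurable
    obtain ⟨V, hV, hVP⟩ := Diffuse.exists_map (μ := μ) hμ P
    have hzs : ∀ n, StronglyMeasurable fun s : ℕ → ℕ => z n (s n) := fun n =>
      (StronglyMeasurable.of_discrete (f := z n)).comp_measurable (measurable_pi_apply n)
    refine contra (μ := μ) (p := p) (q := q) (𝕜 := 𝕜) (fun n ω => z n (V ω n))
      (fun n => (hzs n).comp_measurable hV) (fun n ω => hz2 n _)
      (δ := (l.real univ)⁻¹ * δ) (by positivity) ?_ ?_ hatt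
    · intro s w hw hw1
      have h1 := transfer hV hQm hVP (fun t : ℕ → ℕ => ‖∑ n ∈ s, w n • z n (t n)‖)
        ((Finset.stronglyMeasurable_fun_sum s fun n _ => (hzs n).const_smul (w n)).norm)
      rw [h1, smul_eq_mul, ENNReal.toReal_inv]
      exact mul_le_mul_of_nonneg_left (hconv s w hw hw1) (by positivity)
    · intro x' n k hnk
      have hxs : ∀ n, StronglyMeasurable fun t : ℕ → ℕ => x' (z n (t n)) := fun n =>
        x'.continuous.comp_stronglyMeasurable (hzs n)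
      have h1 := transfer hV hQm hVP (fun t : ℕ → ℕ => x' (z n (t n)) * conj (x' (z k (t k))))
        ((hxs n).mul (RCLike.continuous_conj.comp_stronglyMeasurable (hxs k)))
      rw [h1, ho x' n k hnk, smul_zero]

end Q192.NA
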