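import Mathlib

/-!
# Densities of a vector measure along countable partitions
-/

set_option autoImplicit false

open Filter Topology Set MeasureTheory

namespace Q192.NA

section Basic

variable {Ω : Type*} [MeasurableSpace Ω] {ν : Measure Ω} [IsFiniteMeasure ν]
variable {Y : Type*} [NormedAddCommGroup Y] [NormedSpace ℝ Y]

/-- The mean value of the vector measure on a cell of the partition. -/
noncomputable def val (ν : Measure Ω) (m : VectorMeasure Ω Y) (π : Ω → ℕ) (k : ℕ) : Y :=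
  (ν.real (π ⁻¹' {k}))⁻¹ • m (π ⁻¹' {k})

/-- The step function of the mean values. -/
noncomputable def dens (ν : Measure Ω) (m : VectorMeasure Ω Y) (π : Ω → ℕ) (ω : Ω) : Y :=
  val ν m π (π ω)

variable {m : VectorMeasure Ω Y} {c : ℝ}

omit [IsFiniteMeasure ν] in
lemma norm_val_le (hm : ∀ s, MeasurableSet s → ‖m s‖ ≤ c * ν.real s) (hc : 0 ≤ c) {π : Ω → ℕ}
    (hπ : Measurable π) (k : ℕ) : ‖val ν m π k‖ ≤ c := by
  rw [val, norm_smul, norm_inv, Real.norm_of_nonneg measureReal_nonneg]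
  rcases eq_or_lt_of_le (measureReal_nonneg (μ := ν) (s := π ⁻¹' {k})) with h | h
  · rw [← h, inv_zero, zero_mul]; exact hc
  · rw [inv_mul_le_iff₀ h, mul_comm]
    exact hm _ (hπ (measurableSet_singleton k))

omit [IsFiniteMeasure ν] in
lemma smul_val (hm : ∀ s, MeasurableSet s → ‖m s‖ ≤ c * ν.real s) {π : Ω → ℕ}
    (hπ : Measurable π) (k : ℕ) : ν.real (π ⁻¹' {k}) • val ν m π k = m (π ⁻¹' {k}) := by
  rw [val, smul_smul]
  rcases eq_or_ne (ν.real (π ⁻¹' {k})) 0 with h | h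
  · have h1 := hm _ (hπ (measurableSet_singleton k))
    rw [h, mul_zero] at h1
    rw [norm_le_zero_iff.1 h1, smul_zero]
  · rw [mul_inv_cancel₀ h, one_smul]

omit [IsFiniteMeasure ν] in
lemma sm_comp {Z : Type*} [TopologicalSpace Z] (z : ℕ → Z) {π : Ω → ℕ} (hπ : Measurable π) :
    StronglyMeasurable (fun ω => z (π ω)) :=
  (StronglyMeasurable.of_discrete (f := z)).comp_measurable hπ

lemma integrable_comp {Z : Type*} [NormedAddCommGroup Z] (z : ℕ → Z) {π : Ω → ℕ}
    (hπ : Measurable π) {C : ℝ} (hz : ∀ k, ‖z k‖ ≤ C) : Integrable (fun ω => z (π ω)) ν :=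
  Integrable.of_bound (sm_comp z hπ).aestronglyMeasurable C (Eventually.of_forall fun _ => hz _)

lemma integrable_dens (hm : ∀ s, MeasurableSet s → ‖m s‖ ≤ c * ν.real s) (hc : 0 ≤ c)
    {π : Ω → ℕ} (hπ : Measurable π) : Integrable (dens ν m π) ν :=
  integrable_comp _ hπ (norm_val_le hm hc hπ)

omit [IsFiniteMeasure ν] in
/-- Integration over the cells. -/
lemma hasSum_cells {Z : Type*} [NormedAddCommGroup Z] [NormedSpace ℝ Z] {F : Ω → Z}
    (hF : Integrable F ν) {π : Ω → ℕ} (hπ : Measurable π) (T : Set ℕ) :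
    HasSum (fun k => ∫ ω in π ⁻¹' ({k} ∩ T), F ω ∂ν) (∫ ω in π ⁻¹' T, F ω ∂ν) := by
  have hun : π ⁻¹' T = ⋃ k, π ⁻¹' ({k} ∩ T) := by
    ext ω
    simp
  rw [hun]
  refine hasSum_integral_iUnion (fun k => hπ (MeasurableSet.of_discrete)) ?_ hF.integrableOn
  intro i j hij
  refine disjoint_left.2 fun ω h1 h2 => hij ?_
  have h3 : π ω = i := h1.1
  have h4 : π ω = j := h2.1
  rw [← h3, h4]

omit [IsFiniteMeasure ν] in
lemma integral_cells_eq {Z : Type*} [NormedAddCommGroup Z] [NormedSpace ℝ Z] {F G : Ω → Z}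
    (hF : Integrable F ν) (hG : Integrable G ν) {π : Ω → ℕ} (hπ : Measurable π)
    (h : ∀ k, ∫ ω in π ⁻¹' {k}, F ω ∂ν = ∫ ω in π ⁻¹' {k}, G ω ∂ν) :
    ∫ ω, F ω ∂ν = ∫ ω, G ω ∂ν := by
  have h1 := hasSum_cells hF hπ univ
  have h2 := hasSum_cells hG hπ univ
  simp only [inter_univ, preimage_univ, Measure.restrict_univ] at h1 h2
  simp only [h] at h1
  exact h1.unique h2

lemma setIntegral_dens (hm : ∀ s, MeasurableSet s → ‖m s‖ ≤ c * ν.real s) (hc : 0 ≤ c)
    {π : Ω → ℕ} (hπ : Measurable π) (T : Set ℕ) [CompleteSpace Y] :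
    ∫ ω in π ⁻¹' T, dens ν m π ω ∂ν = m (π ⁻¹' T) := by
  have h1 := hasSum_cells (integrable_dens hm hc hπ) hπ T
  have hun : π ⁻¹' T = ⋃ k, π ⁻¹' ({k} ∩ T) := by
    ext ω
    simp
  have hdisj : Pairwise (Function.onFun Disjoint fun k => π ⁻¹' ({k} ∩ T)) := by
    intro i j hij
    refine disjoint_left.2 fun ω h1 h2 => hij ?_
    have h3 : π ω = i := h1.1
    have h4 : π ω = j := h2.1
    rw [← h3, h4]
  have h2 := m.hasSum_of_disjoint_iUnion (fun k => hπ (MeasurableSet.of_discrete)) hdisj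
  rw [← hun] at h2
  have h3 : ∀ k, ∫ ω in π ⁻¹' ({k} ∩ T), dens ν m π ω ∂ν = m (π ⁻¹' ({k} ∩ T)) := by
    intro k
    by_cases hk : k ∈ T
    · have : ({k} : Set ℕ) ∩ T = {k} := inter_eq_left.2 (singleton_subset_iff.2 hk)
      rw [this, ← smul_val hm hπ k]
      rw [setIntegral_congr_fun (g := fun _ => val ν m π k) (hπ (measurableSet_singleton k))
        (fun ω hω => by
          have : π ω = k := hω
          simp only [dens, this])]
      simp
    · have : ({k} : Set ℕ) ∩ T = ∅ := by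
        rw [eq_empty_iff_forall_notMem]
        rintro j ⟨hj, hjT⟩
        rw [mem_singleton_iff] at hj
        exact hk (hj ▸ hjT)
      rw [this]
      simp
  simp only [h3] at h1
  exact h1.unique h2

/-- Either there is a density, or the step functions keep moving in `L¹`. -/
theorem density_or_moving [CompleteSpace Y] (hm : ∀ s, MeasurableSet s → ‖m s‖ ≤ c * ν.real s)
    (hc : 0 ≤ c) : (∃ g : Ω → Y, Integrable g ν ∧ ∀ s, MeasurableSet s → m s = ∫ ω in s, g ω ∂ν) ∨
      ∃ e : ℝ, 0 < e ∧ ∀ π : Ω → ℕ, Measurable π → ∃ ρ : Ω → ℕ, Measurable ρ ∧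
        e ≤ ∫ ω, ‖dens ν m (fun ω => Nat.pair (π ω) (ρ ω)) ω - dens ν m π ω‖ ∂ν := by
  by_contra hcon
  push Not at hcon
  obtain ⟨hno, hmv⟩ := hcon
  choose! P hP hP' using hmv
  have hpair : ∀ {π ρ : Ω → ℕ}, Measurable π → Measurable ρ →
      Measurable fun ω => Nat.pair (π ω) (ρ ω) := fun h1 h2 =>
    (measurable_from_prod_countable_right (f := fun p : ℕ × ℕ => Nat.pair p.1 p.2)
      (fun _ => measurable_from_top)).comp (h1.prodMk h2)
  set π : ℕ → Ω → ℕ := fun n => P ((1 / 2) ^ n) with hπdef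
  have he : ∀ n : ℕ, (0 : ℝ) < (1 / 2) ^ n := fun n => by positivity
  have hπ : ∀ n, Measurable (π n) := fun n => hP _ (he n)
  have hπ' : ∀ n ρ, Measurable ρ →
      ∫ ω, ‖dens ν m (fun ω => Nat.pair (π n ω) (ρ ω)) ω - dens ν m (π n) ω‖ ∂ν < (1 / 2) ^ n :=
    fun n ρ hρ => hP' _ (he n) ρ hρ
  have hint : ∀ n, Integrable (dens ν m (π n)) ν := fun n => integrable_dens hm hc (hπ n)
  have hint2 : ∀ n ρ, Measurable ρ →
      Integrable (dens ν m (fun ω => Nat.pair (π n ω) (ρ ω))) ν := fun n ρ hρ =>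
    integrable_dens hm hc (hpair (hπ n) hρ)
  -- symmetric refinement
  have hsymm : ∀ a b : Ω → ℕ, dens ν m (fun ω => Nat.pair (a ω) (b ω)) =
      dens ν m (fun ω => Nat.pair (b ω) (a ω)) := by
    intro a b
    funext ω
    have : (fun ω => Nat.pair (a ω) (b ω)) ⁻¹' {Nat.pair (a ω) (b ω)} =
        (fun ω => Nat.pair (b ω) (a ω)) ⁻¹' {Nat.pair (b ω) (a ω)} := by
      ext ω'
      simp only [mem_preimage, mem_singleton_iff, Nat.pair_eq_pair]
      tauto
    simp only [dens, val, this]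
  let G : ℕ → (Ω →₁[ν] Y) := fun n => (hint n).toL1
  have hdist : ∀ n k, dist (G n) (G k) ≤ (1 / 2) ^ n + (1 / 2) ^ k := by
    intro n k
    rw [dist_eq_norm, ← Integrable.toL1_sub, L1.norm_of_fun_eq_integral_norm]
    have h1 := hπ' n (π k) (hπ k)
    have h2 := hπ' k (π n) (hπ n)
    rw [← hsymm (π n) (π k)] at h2
    have h3 : ∀ ω, ‖(dens ν m (π n) - dens ν m (π k)) ω‖ ≤
        ‖dens ν m (fun ω => Nat.pair (π n ω) (π k ω)) ω - dens ν m (π n) ω‖ +
        ‖dens ν m (fun ω => Nat.pair (π n ω) (π k ω)) ω - dens ν m (π k) ω‖ := by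
      intro ω
      have : (dens ν m (π n) - dens ν m (π k)) ω =
        (dens ν m (fun ω => Nat.pair (π n ω) (π k ω)) ω - dens ν m (π k) ω) -
        (dens ν m (fun ω => Nat.pair (π n ω) (π k ω)) ω - dens ν m (π n) ω) := by
        rw [Pi.sub_apply]; abel
      rw [this]
      exact (norm_sub_le _ _).trans (add_comm _ _).le
    have i1 := ((hint2 n (π k) (hπ k)).sub (hint n)).norm
    have i2 := ((hint2 n (π k) (hπ k)).sub (hint k)).norm
    have h4 := integral_mono (((hint n).sub (hint k)).norm) (i1.add i2) h3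
    have h5 := integral_add i1 i2
    simp only [Pi.sub_apply, Pi.add_apply] at h4 h5
    simp only [Pi.sub_apply]
    linarith
  have hC : CauchySeq G := by
    refine Metric.cauchySeq_iff'.2 fun e he' => ?_
    obtain ⟨N, hN⟩ := exists_pow_lt_of_lt_one (show 0 < e / 2 by positivity)
      (show (1 / 2 : ℝ) < 1 by norm_num)
    refine ⟨N, fun n hn => (hdist n N).trans_lt ?_⟩
    have : (1 / 2 : ℝ) ^ n ≤ (1 / 2) ^ N :=
      pow_le_pow_of_le_one (by norm_num) (by norm_num) hn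
    linarith
  obtain ⟨G', hG'⟩ := cauchySeq_tendsto_of_complete hC
  obtain ⟨s, hs, hne⟩ := hno G' (L1.integrable_coeFn G')
  apply hne
  classical
  have hind : Measurable (s.indicator (fun _ => (1 : ℕ))) := measurable_const.indicator hs
  have h1 : Tendsto (fun n => ∫ ω in s, dens ν m (π n) ω ∂ν) atTop (𝓝 (∫ ω in s, G' ω ∂ν)) := by
    refine tendsto_setIntegral_of_L1' _ (L1.integrable_coeFn G').aestronglyMeasurable
      (Eventually.of_forall hint) ?_ s
    have h2 : Tendsto (fun n => ‖G n - G'‖ₑ) atTop (𝓝 0) := by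
      have h5 := ENNReal.tendsto_ofReal (tendsto_iff_norm_sub_tendsto_zero.1 hG')
      rw [ENNReal.ofReal_zero] at h5
      exact h5.congr fun n => ofReal_norm _
    refine h2.congr fun n => ?_
    rw [Lp.enorm_def]
    refine (eLpNorm_congr_ae ?_)
    filter_upwards [Lp.coeFn_sub (G n) G', (hint n).coeFn_toL1] with ω h3 h4
    rw [h3, Pi.sub_apply, Pi.sub_apply, h4]
  refine tendsto_nhds_unique ?_ h1
  rw [tendsto_iff_norm_sub_tendsto_zero]
  have hpow := tendsto_pow_atTop_nhds_zero_of_lt_one (show (0 : ℝ) ≤ 1 / 2 by norm_num)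
    (by norm_num)
  refine squeeze_zero (fun _ => norm_nonneg _) (fun n => ?_) hpow
  have hset : s = (fun ω => Nat.pair (π n ω) (s.indicator (fun _ => (1 : ℕ)) ω)) ⁻¹'
      {k | (Nat.unpair k).2 = 1} := by
    ext ω
    by_cases hω : ω ∈ s <;> simp [hω]
  have h2 := setIntegral_dens hm hc (hpair (hπ n) hind) {k | (Nat.unpair k).2 = 1}
  rw [← hset] at h2
  rw [← h2, ← integral_sub (hint n).integrableOn (hint2 n _ hind).integrableOn]
  refine (norm_integral_le_integral_norm _).trans ?_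
  have h3 : ∫ ω in s, ‖dens ν m (π n) ω - dens ν m (fun ω => Nat.pair (π n ω)
      (s.indicator (fun _ => (1 : ℕ)) ω)) ω‖ ∂ν ≤
      ∫ ω, ‖dens ν m (π n) ω - dens ν m (fun ω => Nat.pair (π n ω)
      (s.indicator (fun _ => (1 : ℕ)) ω)) ω‖ ∂ν :=
    setIntegral_le_integral (((hint n).sub (hint2 n _ hind)).norm)
      (Eventually.of_forall fun _ => norm_nonneg _)
  refine h3.trans ?_
  have h4 := hπ' n _ hind
  simp_rw [norm_sub_rev (dens ν m (π n) _)]
  exact h4.le

end Basic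

end Q192.NA
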